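import Pool.Agent.Lib.MP_47458b_co.Upper.Spread

/-!
Inner vertices, leaves and Hall violators.
-/

namespace Pool.Agent.Lib.MP_47458b_co

open Finset

variable {V W : Type} [Fintype V] [DecidableEq V] [Fintype W] [DecidableEq W]
  {D : Digraph V} {T : Digraph W} {G : SimpleGraph W}

theorem Cn.inter {S S' : Finset W} (hG : G.IsAcyclic) (h : Cn G S) (h' : Cn G S') :
    Cn G (S ∩ S') := by
  intro a ha b hb
  rw [mem_inter] at ha hb
  obtain ⟨p, hp⟩ := h a ha.1 b hb.1
  obtain ⟨q, hq⟩ := h' a ha.2 b hb.2
  have heq : p.toPath = q.toPath := (hG.subsingleton_path a b).elim _ _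
  refine ⟨p.toPath.1, fun x hx => mem_inter.2 ⟨hp x (p.support_toPath_subset_support hx), ?_⟩⟩
  rw [heq] at hx
  exact hq x (q.support_toPath_subset_support hx)

/-- The inner vertices (vertices with at least two neighbours). -/
noncomputable def inn (G : SimpleGraph W) : Finset W :=
  open Classical in univ.filter (Inner G)

theorem mem_inn {x : W} : x ∈ inn G ↔ Inner G x := by
  simp [inn]

theorem leaf_unique {l a b : W} (hl : l ∉ inn G) (ha : G.Adj l a) (hb : G.Adj l b) : a = b := by
  by_contra hne
  exact hl (mem_inn.2 ⟨a, b, hne, ha, hb⟩)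

theorem exists_par (hG : G.Connected) (hW : 3 ≤ Fintype.card W) {l : W} (hl : l ∉ inn G) :
    ∃ a ∈ inn G, G.Adj a l := by
  classical
  have huniv := Cn.univ hG
  obtain ⟨c, hc⟩ : ∃ c, c ∉ ({l} : Finset W) := by
    by_contra hcon
    push Not at hcon
    have : (univ : Finset W) ⊆ {l} := fun x _ => hcon x
    have := card_le_card this
    rw [card_univ, card_singleton] at this
    omega
  obtain ⟨x, hx, a, -, ha, -, hadj⟩ := huniv.boundary (S := {l}) (a := l) (b := c)
    (mem_singleton_self l) (mem_univ _) (mem_univ _) hc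
  rw [mem_singleton] at hx
  subst hx
  refine ⟨a, ?_, hadj.symm⟩
  by_contra hain
  obtain ⟨c, hc⟩ : ∃ c, c ∉ ({x, a} : Finset W) := by
    by_contra hcon
    push Not at hcon
    have : (univ : Finset W) ⊆ {x, a} := fun x _ => hcon x
    have := card_le_card this
    have h2 := card_le_two (a := x) (b := a)
    rw [card_univ] at this
    omega
  obtain ⟨u, hu, w, -, hw, -, huw⟩ := huniv.boundary (S := {x, a}) (a := x) (b := c)
    (by simp) (mem_univ _) (mem_univ _) hc
  rw [mem_insert, mem_singleton] at hu
  apply hw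
  rw [mem_insert, mem_singleton]
  rcases hu with rfl | rfl
  · exact Or.inr (leaf_unique hl huw hadj)
  · exact Or.inl (leaf_unique hain huw hadj.symm)

theorem cn_inn (G : SimpleGraph W) (hG : G.Connected) : Cn G (inn G) := by
  have key : ∀ n : ℕ, ∀ (a b : W) (p : G.Walk a b), p.length = n → a ∈ inn G → b ∈ inn G →
      ∃ q : G.Walk a b, ∀ x ∈ q.support, x ∈ inn G := by
    intro n
    induction n using Nat.strong_induction_on with
    | _ n ih =>
      intro a b p hp ha hb
      cases p with
      | nil => exact ⟨SimpleGraph.Walk.nil, by simpa using ha⟩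
      | @cons _ c _ hac p' =>
        by_cases hc : c ∈ inn G
        · obtain ⟨q, hq⟩ := ih p'.length (by rw [← hp, SimpleGraph.Walk.length_cons]; omega) c b
            p' rfl hc hb
          refine ⟨SimpleGraph.Walk.cons hac q, fun x hx => ?_⟩
          rw [SimpleGraph.Walk.support_cons, List.mem_cons] at hx
          rcases hx with rfl | hx
          · exact ha
          · exact hq x hx
        · cases p' with
          | nil => exact absurd hb hc
          | @cons _ d _ hcd p'' =>
            have hd : d = a := leaf_unique hc hcd hac.symm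
            subst hd
            exact ih p''.length (by
              rw [← hp, SimpleGraph.Walk.length_cons, SimpleGraph.Walk.length_cons]; omega) d b
              p'' rfl ha hb
  intro a ha b hb
  obtain ⟨p⟩ := hG.preconnected a b
  exact key p.length a b p rfl ha hb

/-- The parent of a leaf. -/
noncomputable def par (G : SimpleGraph W) (l : W) : W :=
  open Classical in if h : ∃ a ∈ inn G, G.Adj a l then h.choose else l

theorem par_spec (hG : G.Connected) (hW : 3 ≤ Fintype.card W) {l : W} (hl : l ∉ inn G) :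
    par G l ∈ inn G ∧ G.Adj (par G l) l := by
  classical
  have h := exists_par hG hW hl
  unfold par
  rw [dif_pos h]
  exact h.choose_spec

theorem par_eq (hG : G.Connected) (hW : 3 ≤ Fintype.card W) {l a : W} (hl : l ∉ inn G)
    (ha : G.Adj a l) : a = par G l :=
  leaf_unique hl ha.symm (par_spec hG hW hl).2.symm

/-- The leaves attached to `St`. -/
noncomputable def lst (G : SimpleGraph W) (St : Finset W) : Finset W :=
  open Classical in (inn G)ᶜ.filter fun l => par G l ∈ St

theorem mem_lst {St : Finset W} {l : W} : l ∈ lst G St ↔ l ∉ inn G ∧ par G l ∈ St := by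
  simp [lst]

/-- Hall violators. `J` is a set containing the image of the inner vertices and all
neighbourhoods relevant for the leaves in `S`. -/
theorem violator (hT : IsOrientedGraph T) (hG : T.toSimpleGraphInclusive.Connected)
    (hW : 3 ≤ Fintype.card W) {φ : W → V} (hφ : IsEmb T D (inn T.toSimpleGraphInclusive) φ)
    (hno : ¬ Contains D T) :
    ∃ (S : Finset W) (J : Finset V), S ⊆ (inn T.toSimpleGraphInclusive)ᶜ ∧ S.Nonempty ∧
      J.card + 1 ≤ (inn T.toSimpleGraphInclusive).card + S.card ∧
      (inn T.toSimpleGraphInclusive).image φ ⊆ J ∧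
      ∀ l ∈ S, nb D (sg T (par T.toSimpleGraphInclusive l) l)
        (φ (par T.toSimpleGraphInclusive l)) ⊆ J := by
  classical
  set G := T.toSimpleGraphInclusive with hGdef
  let t : {l // l ∈ (inn G)ᶜ} → Finset V := fun l =>
    nb D (sg T (par G l.1) l.1) (φ (par G l.1)) \ (inn G).image φ
  have hnot : ¬ ∀ s : Finset {l // l ∈ (inn G)ᶜ}, s.card ≤ (s.biUnion t).card := by
    intro hall
    obtain ⟨f, hf, hft⟩ := (Finset.all_card_le_biUnion_card_iff_exists_injective t).1 hall
    apply hno
    let ψ : W → V := fun w => if h : w ∈ (inn G)ᶜ then f ⟨w, h⟩ else φ w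
    have hψ1 : ∀ w, w ∈ inn G → ψ w = φ w := by
      intro w hw
      have : w ∉ (inn G)ᶜ := by rw [mem_compl]; exact fun h => h hw
      simp only [ψ, dif_neg this]
    have hψ2 : ∀ w (h : w ∈ (inn G)ᶜ), ψ w = f ⟨w, h⟩ := by
      intro w h
      simp only [ψ, dif_pos h]
    have hft1 : ∀ w (h : w ∈ (inn G)ᶜ), f ⟨w, h⟩ ∈ nb D (sg T (par G w) w) (φ (par G w)) :=
      fun w h => (mem_sdiff.1 (hft ⟨w, h⟩)).1
    have hft2 : ∀ w (h : w ∈ (inn G)ᶜ), ∀ a ∈ inn G, f ⟨w, h⟩ ≠ φ a := by
      intro w h a ha heq
      exact (mem_sdiff.1 (hft ⟨w, h⟩)).2 (mem_image.2 ⟨a, ha, heq.symm⟩)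
    refine ⟨ψ, ?_, ?_⟩
    · intro a b hab
      by_cases ha : a ∈ inn G <;> by_cases hb : b ∈ inn G
      · rw [hψ1 a ha, hψ1 b hb] at hab
        exact hφ.inj a ha b hb hab
      · rw [hψ1 a ha, hψ2 b (mem_compl.2 hb)] at hab
        exact absurd hab.symm (hft2 b _ a ha)
      · rw [hψ2 a (mem_compl.2 ha), hψ1 b hb] at hab
        exact absurd hab (hft2 a _ b hb)
      · rw [hψ2 a (mem_compl.2 ha), hψ2 b (mem_compl.2 hb)] at hab
        have := hf hab
        simpa using this
    · intro a b hab
      have hne : a ≠ b := fun h => hT.1 a (by rw [← h] at hab; exact hab)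
      have hadj : G.Adj a b := by
        simp only [hGdef, Digraph.toSimpleGraphInclusive, SimpleGraph.fromRel_adj]
        exact ⟨hne, Or.inl hab⟩
      by_cases ha : a ∈ inn G <;> by_cases hb : b ∈ inn G
      · rw [hψ1 a ha, hψ1 b hb]
        exact hφ.hom a ha b hb hab
      · rw [hψ1 a ha, hψ2 b (mem_compl.2 hb)]
        have h1 := hft1 b (mem_compl.2 hb)
        have h2 := par_eq hG hW hb hadj
        rw [← h2] at h1
        have h3 : sg T a b = true := by
          simp only [sg, decide_eq_true_eq]; exact hab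
        rw [h3] at h1
        exact mem_nb_true.1 h1
      · rw [hψ2 a (mem_compl.2 ha), hψ1 b hb]
        have h1 := hft1 a (mem_compl.2 ha)
        have h2 := par_eq hG hW ha hadj.symm
        rw [← h2] at h1
        have h3 : sg T b a = false := by
          simp only [sg, decide_eq_false_iff_not]
          exact hT.2 _ _ hab
        rw [h3] at h1
        exact mem_nb_false.1 h1
      · exfalso
        have h2 := par_eq hG hW hb hadj
        exact ha (h2 ▸ (par_spec hG hW hb).1)
  push Not at hnot
  obtain ⟨s, hs⟩ := hnot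
  have hsne : s.Nonempty := by
    rw [← card_pos]; omega
  refine ⟨s.map (Function.Embedding.subtype _), (inn G).image φ ∪ s.biUnion t, ?_, ?_, ?_, ?_, ?_⟩
  · intro x hx
    rw [mem_map] at hx
    obtain ⟨y, -, rfl⟩ := hx
    exact y.2
  · obtain ⟨y, hy⟩ := hsne
    exact ⟨y.1, mem_map.2 ⟨y, hy, rfl⟩⟩
  · rw [card_map]
    have h1 := card_union_le ((inn G).image φ) (s.biUnion t)
    rw [hφ.card_image] at h1
    omega
  · exact subset_union_left
  · intro l hl
    rw [mem_map] at hl
    obtain ⟨y, hy, rfl⟩ := hl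
    intro x hx
    rw [mem_union]
    by_cases hxi : x ∈ (inn G).image φ
    · exact Or.inl hxi
    · exact Or.inr (mem_biUnion.2 ⟨y, hy, mem_sdiff.2 ⟨hx, hxi⟩⟩)

end Pool.Agent.Lib.MP_47458b_co
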