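import Pool.Agent.Lib.MP_47458b_co.Defs

/-!
Connected vertex sets of a tree, and partial embeddings.
-/

namespace Pool.Agent.Lib.MP_47458b_co

open Finset

variable {W : Type} [DecidableEq W]

/-- Any two vertices of `S` are joined by a walk inside `S`. -/
def Cn (G : SimpleGraph W) (S : Finset W) : Prop :=
  ∀ a ∈ S, ∀ b ∈ S, ∃ p : G.Walk a b, ∀ x ∈ p.support, x ∈ S

variable {G : SimpleGraph W} {S S0 : Finset W}

theorem Cn.single (r : W) : Cn G {r} := by
  intro a ha b hb
  rw [mem_singleton] at ha hb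
  subst ha hb
  exact ⟨SimpleGraph.Walk.nil, by simp⟩

/-- Sets in which everything is joined to a fixed vertex. -/
theorem Cn.of_root {r : W} (h : ∀ a ∈ S, ∃ p : G.Walk a r, ∀ x ∈ p.support, x ∈ S) : Cn G S := by
  intro a ha b hb
  obtain ⟨p, hp⟩ := h a ha
  obtain ⟨q, hq⟩ := h b hb
  refine ⟨p.append q.reverse, fun x hx => ?_⟩
  rw [SimpleGraph.Walk.mem_support_append_iff] at hx
  rcases hx with hx | hx
  · exact hp x hx
  · rw [SimpleGraph.Walk.support_reverse, List.mem_reverse] at hx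
    exact hq x hx

theorem Cn.insert (h : Cn G S) {a t : W} (ha : a ∈ S) (hat : G.Adj a t) : Cn G (insert t S) := by
  apply Cn.of_root (r := a)
  intro b hb
  rw [mem_insert] at hb
  rcases hb with rfl | hb
  · refine ⟨SimpleGraph.Walk.cons hat.symm SimpleGraph.Walk.nil, fun x hx => ?_⟩
    simp only [SimpleGraph.Walk.support_cons, SimpleGraph.Walk.support_nil, List.mem_cons,
      List.not_mem_nil, or_false] at hx
    rcases hx with rfl | rfl
    · exact mem_insert_self _ _
    · exact mem_insert_of_mem ha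
  · obtain ⟨p, hp⟩ := h b hb a ha
    exact ⟨p, fun x hx => mem_insert_of_mem (hp x hx)⟩

/-- Union of two connected sets with a common vertex. -/
theorem Cn.union {S T : Finset W} (h : Cn G S) (h' : Cn G T) {r : W} (hr : r ∈ S) (hr' : r ∈ T) :
    Cn G (S ∪ T) := by
  apply Cn.of_root (r := r)
  intro b hb
  rw [mem_union] at hb
  rcases hb with hb | hb
  · obtain ⟨p, hp⟩ := h b hb r hr
    exact ⟨p, fun x hx => mem_union_left _ (hp x hx)⟩
  · obtain ⟨p, hp⟩ := h' b hb r hr'
    exact ⟨p, fun x hx => mem_union_right _ (hp x hx)⟩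

theorem Cn.univ [Fintype W] (hG : G.Connected) : Cn G (Finset.univ : Finset W) := by
  intro a _ b _
  obtain ⟨p⟩ := hG.preconnected a b
  exact ⟨p, fun x _ => mem_univ x⟩

theorem Cn.boundary (h : Cn G S0) {a b : W} (ha : a ∈ S) (haS : a ∈ S0) (hb : b ∈ S0)
    (hbS : b ∉ S) : ∃ x ∈ S, ∃ y ∈ S0, y ∉ S ∧ x ∈ S0 ∧ G.Adj x y := by
  obtain ⟨p, hp⟩ := h a haS b hb
  obtain ⟨d, hd, h1, h2⟩ := p.exists_boundary_dart (S : Set W) ha hbS
  exact ⟨d.fst, h1, d.snd, hp _ (p.dart_snd_mem_support_of_mem_darts hd), h2,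
    hp _ (p.dart_fst_mem_support_of_mem_darts hd), d.adj⟩

/-- A vertex outside a connected set has at most one neighbour in it. -/
theorem Cn.unique (hG : G.IsAcyclic) (h : Cn G S) {a b t : W} (ha : a ∈ S) (hb : b ∈ S)
    (ht : t ∉ S) (hat : G.Adj a t) (hbt : G.Adj b t) : a = b := by
  by_contra hne
  obtain ⟨p, hp⟩ := h a ha b hb
  have hp' : ∀ x ∈ p.toPath.1.support, x ∈ S := fun x hx =>
    hp x (p.support_toPath_subset_support hx)
  have h1 := hG.mem_support_of_ne_mem_support_of_adj_of_isPath (p := SimpleGraph.Walk.cons hat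
    SimpleGraph.Walk.nil) (q := p.toPath.1) (by simp [hat.ne]) p.toPath.2 hbt.symm
    (fun hx => ht (hp' t hx))
  simp only [SimpleGraph.Walk.support_cons, SimpleGraph.Walk.support_nil, List.mem_cons,
    List.not_mem_nil, or_false] at h1
  rcases h1 with h1 | h1
  · exact hne h1.symm
  · exact hbt.ne h1

/-- If `insert r R` and the complement of `R` are connected, then `R` has neighbours only in
`insert r R`. -/
theorem Cn.no_edge [Fintype W] (hG : G.IsAcyclic) {r : W} {R : Finset W} (hr : r ∉ R)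
    (h1 : Cn G (Insert.insert r R)) (h2 : Cn G Rᶜ) {x c : W} (hx : x ∉ R) (hxr : x ≠ r)
    (hc : c ∈ R) : ¬ G.Adj x c := by
  intro hadj
  obtain ⟨p, hp⟩ := h2 r (mem_compl.2 hr) x (mem_compl.2 hx)
  obtain ⟨q, hq⟩ := h1 r (mem_insert_self _ _) c (mem_insert_of_mem hc)
  have hp' : ∀ y ∈ p.toPath.1.support, y ∈ Rᶜ := fun y hy =>
    hp y (p.support_toPath_subset_support hy)
  have hq' : ∀ y ∈ q.toPath.1.support, y ∈ Insert.insert r R := fun y hy =>
    hq y (q.support_toPath_subset_support hy)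
  -- `c` is not in `p`, hence `x` is in `q`
  have h3 := hG.mem_support_of_ne_mem_support_of_adj_of_isPath (p := q.toPath.1)
    (q := p.toPath.1) q.toPath.2 p.toPath.2 hadj.symm
    (fun hx => (mem_compl.1 (hp' c hx)) hc)
  have h4 := hq' x h3
  rw [mem_insert] at h4
  rcases h4 with h4 | h4
  · exact hxr h4
  · exact hx h4

end Pool.Agent.Lib.MP_47458b_co
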