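import Pool.Agent.Lib.MP_47458b_co.Upper.Cn

/-!
Partial embeddings of an oriented tree into a digraph.
-/

namespace Pool.Agent.Lib.MP_47458b_co

open Finset

variable {V W : Type} [Fintype V] [DecidableEq V] [DecidableEq W]

/-- Neighbours of `x`: out-neighbours for `s = true`, in-neighbours for `s = false`. -/
noncomputable def nb (D : Digraph V) (s : Bool) (x : V) : Finset V :=
  open Classical in univ.filter (fun y => if s then D.Adj x y else D.Adj y x)

variable {D : Digraph V} {T : Digraph W} {S S' : Finset W} {φ : W → V}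

theorem mem_nb_true {x y : V} : y ∈ nb D true x ↔ D.Adj x y := by
  simp [nb]

theorem mem_nb_false {x y : V} : y ∈ nb D false x ↔ D.Adj y x := by
  simp [nb]

theorem notMem_nb_self (hD : Loopless D) (s : Bool) (x : V) : x ∉ nb D s x := by
  cases s
  · rw [mem_nb_false]; exact hD x
  · rw [mem_nb_true]; exact hD x

theorem card_nb_true (x : V) : (nb D true x).card = outDeg D x := by
  rw [outDeg, ← Set.ncard_coe_finset]
  congr 1
  ext y
  simp [nb]

theorem card_nb_false (x : V) : (nb D false x).card = inDeg D x := by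
  rw [inDeg, ← Set.ncard_coe_finset]
  congr 1
  ext y
  simp [nb]

/-- The sign of the edge from `a` to `b`. -/
noncomputable def sg (T : Digraph W) (a b : W) : Bool := open Classical in decide (T.Adj a b)

/-- `φ` restricted to `S` is an embedding. -/
structure IsEmb (T : Digraph W) (D : Digraph V) (S : Finset W) (φ : W → V) : Prop where
  inj : ∀ a ∈ S, ∀ b ∈ S, φ a = φ b → a = b
  hom : ∀ a ∈ S, ∀ b ∈ S, T.Adj a b → D.Adj (φ a) (φ b)

theorem IsEmb.card_image (h : IsEmb T D S φ) : (S.image φ).card = S.card :=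
  card_image_of_injOn fun a ha b hb hab => h.inj a ha b hb hab

theorem IsEmb.contains [Fintype W] (h : IsEmb T D univ φ) : Contains D T :=
  ⟨φ, fun a b hab => h.inj a (mem_univ a) b (mem_univ b) hab,
    fun a b hab => h.hom a (mem_univ a) b (mem_univ b) hab⟩

theorem IsEmb.congr (h : IsEmb T D S φ) {ψ : W → V} (hψ : ∀ x ∈ S, ψ x = φ x) :
    IsEmb T D S ψ := by
  constructor
  · intro a ha b hb hab
    rw [hψ a ha, hψ b hb] at hab
    exact h.inj a ha b hb hab
  · intro a ha b hb hab
    rw [hψ a ha, hψ b hb]
    exact h.hom a ha b hb hab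

theorem IsEmb.single (hT : Loopless T) (r : W) (u : V) : IsEmb T D {r} (fun _ => u) := by
  constructor
  · intro a ha b hb _
    rw [mem_singleton] at ha hb
    rw [ha, hb]
  · intro a ha b hb hab
    rw [mem_singleton] at ha hb
    rw [ha, hb] at hab
    exact absurd hab (hT r)

theorem IsEmb.extend (hT : IsOrientedGraph T) (hG : T.toSimpleGraphInclusive.IsAcyclic)
    (hS : Cn T.toSimpleGraphInclusive S) (h : IsEmb T D S φ) {a t : W} (ha : a ∈ S) (ht : t ∉ S)
    (hat : T.toSimpleGraphInclusive.Adj a t) {y : V} (hy : y ∈ nb D (sg T a t) (φ a))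
    (hyS : y ∉ S.image φ) : IsEmb T D (insert t S) (Function.update φ t y) := by
  have hne : ∀ b ∈ S, b ≠ t := fun b hb h => ht (h ▸ hb)
  have hup : ∀ b ∈ S, Function.update φ t y b = φ b := fun b hb =>
    Function.update_of_ne (hne b hb) _ _
  have hyb : ∀ b ∈ S, φ b ≠ y := fun b hb h => hyS (mem_image.2 ⟨b, hb, h⟩)
  have hadj : ∀ b ∈ S, T.Adj b t ∨ T.Adj t b → b = a := by
    intro b hb hbt
    refine hS.unique hG hb ha ht ?_ hat
    simp only [Digraph.toSimpleGraphInclusive, SimpleGraph.fromRel_adj]
    exact ⟨hne b hb, hbt⟩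
  constructor
  · intro b hb c hc hbc
    rw [mem_insert] at hb hc
    rcases hb with rfl | hb <;> rcases hc with rfl | hc
    · rfl
    · rw [Function.update_self, hup c hc] at hbc
      exact absurd hbc.symm (hyb c hc)
    · rw [Function.update_self, hup b hb] at hbc
      exact absurd hbc (hyb b hb)
    · rw [hup b hb, hup c hc] at hbc
      exact h.inj b hb c hc hbc
  · intro b hb c hc hbc
    rw [mem_insert] at hb hc
    rcases hb with rfl | hb <;> rcases hc with rfl | hc
    · exact absurd hbc (hT.1 _)
    · rw [Function.update_self, hup c hc]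
      have hca := hadj c hc (Or.inr hbc)
      subst hca
      have hs : sg T c b = false := by
        simp only [sg, decide_eq_false_iff_not]
        exact fun h' => hT.2 _ _ h' hbc
      rw [hs, mem_nb_false] at hy
      exact hy
    · rw [Function.update_self, hup b hb]
      have hba := hadj b hb (Or.inl hbc)
      subst hba
      have hs : sg T b c = true := by
        simp only [sg, decide_eq_true_eq]
        exact hbc
      rw [hs, mem_nb_true] at hy
      exact hy
    · rw [hup b hb, hup c hc]
      exact h.hom b hb c hc hbc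

theorem image_update {t : W} (ht : t ∉ S) (y : V) :
    (insert t S).image (Function.update φ t y) = insert y (S.image φ) := by
  rw [image_insert, Function.update_self]
  congr 1
  apply image_congr
  intro b hb
  refine Function.update_of_ne (fun h => ?_) _ _
  rw [h] at hb
  exact ht hb

/-- A free neighbour exists as long as the image is small. -/
theorem exists_free (hD : Loopless D) {κ : ℕ} (hκ : ∀ s x, κ ≤ (nb D s x).card)
    (h : IsEmb T D S φ) {a : W} (ha : a ∈ S) (hcard : S.card ≤ κ) (s : Bool) :
    ∃ y ∈ nb D s (φ a), y ∉ S.image φ := by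
  by_contra hcon
  push Not at hcon
  have h1 : nb D s (φ a) ⊆ (S.image φ).erase (φ a) := by
    intro y hy
    rw [mem_erase]
    exact ⟨fun h => notMem_nb_self hD s (φ a) (h ▸ hy), hcon y hy⟩
  have h2 := card_le_card h1
  rw [card_erase_of_mem (mem_image_of_mem φ ha), h.card_image] at h2
  have h3 := hκ s (φ a)
  have h4 : 0 < S.card := card_pos.2 ⟨a, ha⟩
  omega

/-- Greedy extension. -/
theorem IsEmb.greedy (hD : Loopless D) {κ : ℕ} (hκ : ∀ s x, κ ≤ (nb D s x).card)
    (hT : IsOrientedGraph T) (hG : T.toSimpleGraphInclusive.IsAcyclic)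
    (hS' : Cn T.toSimpleGraphInclusive S') (hcard : S'.card ≤ κ + 1) :
    ∀ (n : ℕ) (S : Finset W) (φ : W → V), (S' \ S).card = n → S.Nonempty → S ⊆ S' →
      Cn T.toSimpleGraphInclusive S → IsEmb T D S φ →
      ∃ ψ : W → V, IsEmb T D S' ψ ∧ ∀ x ∈ S, ψ x = φ x := by
  intro n
  induction n with
  | zero =>
    intro S φ hn hne hSS hS h
    rw [card_eq_zero, sdiff_eq_empty_iff_subset] at hn
    obtain rfl := Subset.antisymm hSS hn
    exact ⟨φ, h, fun _ _ => rfl⟩
  | succ n ih =>
    intro S φ hn hne hSS hS h
    obtain ⟨b, hb⟩ : (S' \ S).Nonempty := by rw [← card_pos]; omega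
    rw [mem_sdiff] at hb
    obtain ⟨a, ha⟩ := hne
    obtain ⟨x, hx, t, ht, htS, -, hadj⟩ := hS'.boundary ha (hSS ha) hb.1 hb.2
    have hlt : S.card < S'.card := by
      apply card_lt_card
      rw [Finset.ssubset_iff_of_subset hSS]
      exact ⟨b, hb.1, hb.2⟩
    obtain ⟨y, hy, hyS⟩ := exists_free hD hκ h hx (by omega) (sg T x t)
    have hext := h.extend hT hG hS hx htS hadj hy hyS
    obtain ⟨ψ, hψ, hψ'⟩ := ih (insert t S) (Function.update φ t y) (by
        have : S' \ insert t S = (S' \ S).erase t := by
          ext z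
          simp only [mem_sdiff, mem_insert, mem_erase]
          tauto
        rw [this, card_erase_of_mem (mem_sdiff.2 ⟨ht, htS⟩)]
        omega) ⟨t, mem_insert_self _ _⟩ (insert_subset ht hSS) (hS.insert hx hadj) hext
    refine ⟨ψ, hψ, fun z hz => ?_⟩
    rw [hψ' z (mem_insert_of_mem hz)]
    refine Function.update_of_ne (fun h => ?_) _ _
    rw [h] at hz
    exact htS hz

end Pool.Agent.Lib.MP_47458b_co
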