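import Pool.Agent.Lib.MP_47458b_co.Upper.Hall

/-!
Trees with few inner vertices: the inequality for trees that are not contained.
-/

namespace Pool.Agent.Lib.MP_47458b_co

open Finset

variable {V W : Type} [Fintype V] [DecidableEq V] [Fintype W] [DecidableEq W]
  {D : Digraph V} {T : Digraph W} {G : SimpleGraph W}

/-- Number of leaves at `t`. -/
noncomputable def lv (G : SimpleGraph W) (t : W) : ℕ :=
  open Classical in ((inn G)ᶜ.filter fun l => par G l = t).card

theorem exists_start (hG : G.Connected) {z : W} (hz : z ∈ inn G) {M b : ℕ}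
    (hb : ∀ t ∈ inn G, lv G t ≤ b) (hbM : b < M) (hq : M ≤ (inn G)ᶜ.card)
    (hpar : ∀ l ∉ inn G, par G l ∈ inn G) :
    ∃ St ⊆ inn G, z ∈ St ∧ Cn G St ∧ M ≤ (lst G St).card ∧ (lst G St).card ≤ M + b := by
  classical
  set F : Finset (Finset W) := (inn G).powerset.filter
    (fun S => z ∈ S ∧ Cn G S ∧ (lst G S).card < M) with hF
  have h0 : ({z} : Finset W) ∈ F := by
    rw [hF, mem_filter, mem_powerset]
    refine ⟨by simpa using hz, mem_singleton_self z, Cn.single z, ?_⟩
    refine lt_of_le_of_lt ?_ hbM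
    refine le_trans ?_ (hb z hz)
    apply card_le_card
    intro l hl
    rw [mem_lst, mem_singleton] at hl
    rw [mem_filter, mem_compl]
    exact hl
  obtain ⟨S, hS, hmax⟩ := exists_max_image F card ⟨_, h0⟩
  rw [hF, mem_filter, mem_powerset] at hS
  obtain ⟨hSi, hzS, hSc, hSM⟩ := hS
  obtain ⟨c, hc, hcS⟩ : ∃ c ∈ inn G, c ∉ S := by
    by_contra hcon
    push Not at hcon
    have : (inn G)ᶜ ⊆ lst G S := by
      intro l hl
      rw [mem_compl] at hl
      exact mem_lst.2 ⟨hl, hcon _ (hpar l hl)⟩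
    have := card_le_card this
    omega
  obtain ⟨x, hx, t, ht, htS, -, hadj⟩ := (cn_inn G hG).boundary hzS hz hc hcS
  have hins : insert t S ⊆ inn G := insert_subset ht hSi
  refine ⟨insert t S, hins, mem_insert_of_mem hzS, hSc.insert hx hadj, ?_, ?_⟩
  · by_contra hcon
    have h1 : insert t S ∈ F := by
      rw [hF, mem_filter, mem_powerset]
      exact ⟨hins, mem_insert_of_mem hzS, hSc.insert hx hadj, not_le.1 hcon⟩
    have h2 := hmax _ h1
    rw [card_insert_of_notMem htS] at h2
    omega
  · have h1 : lst G (insert t S) ⊆ lst G S ∪ (inn G)ᶜ.filter (fun l => par G l = t) := by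
      intro l hl
      rw [mem_lst, mem_insert] at hl
      rw [mem_union, mem_lst, mem_filter, mem_compl]
      rcases hl.2 with h | h
      · exact Or.inr ⟨hl.1, h⟩
      · exact Or.inl ⟨hl.1, h⟩
    have h2 := (card_le_card h1).trans (card_union_le _ _)
    have h3 := hb t ht
    rw [lv] at h3
    have h4 : ((inn G)ᶜ.filter (fun l => par G l = t)).card ≤ b := by
      refine le_trans (le_of_eq ?_) h3
      congr
    omega

theorem hits_step {ι : Type} [DecidableEq ι] (Λ : Finset ι) (A : ι → Finset V) {α c0 : ℕ}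
    (hA : ∀ l ∈ Λ, (A l).card ≤ α) (C : Finset V) (hC : c0 ≤ C.card) (hc0 : 0 < c0) :
    ∃ x ∈ C, c0 * (Λ.filter fun l => x ∈ A l).card ≤ α * Λ.card := by
  classical
  by_contra hcon
  push Not at hcon
  have hCne : C.Nonempty := by rw [← card_pos]; omega
  have h1 := sum_lt_sum_of_nonempty hCne hcon
  rw [sum_const, smul_eq_mul, ← mul_sum] at h1
  have h2 : ∑ x ∈ C, (Λ.filter fun l => x ∈ A l).card ≤ α * Λ.card := by
    have h3 : ∑ x ∈ C, (Λ.filter fun l => x ∈ A l).card =
        ∑ l ∈ Λ, (C.filter fun x => x ∈ A l).card := by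
      simp only [card_filter]
      rw [sum_comm]
    rw [h3, mul_comm, ← smul_eq_mul, ← sum_const]
    apply sum_le_sum
    intro l hl
    refine (card_le_card ?_).trans (hA l hl)
    intro x hx
    exact (mem_filter.1 hx).2
  have h4 : c0 * (α * Λ.card) ≤ C.card * (α * Λ.card) := Nat.mul_le_mul_right _ hC
  have h5 : c0 * ∑ x ∈ C, (Λ.filter fun l => x ∈ A l).card ≤ c0 * (α * Λ.card) :=
    Nat.mul_le_mul_left _ h2
  omega

theorem emb_hits {κ : ℕ} (hκ : ∀ s x, κ ≤ (nb D s x).card)
    (hT : IsOrientedGraph T) (hG : T.toSimpleGraphInclusive.IsAcyclic)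
    {S' : Finset W} (hS' : Cn T.toSimpleGraphInclusive S')
    {ι : Type} [DecidableEq ι] (Λ : Finset ι) (A : ι → Finset V) {α c0 : ℕ}
    (hA : ∀ l ∈ Λ, (A l).card ≤ α) (hc0 : 0 < c0) (hcard : S'.card + c0 ≤ κ) :
    ∀ (n : ℕ) (S : Finset W) (φ : W → V), (S' \ S).card = n → S.Nonempty → S ⊆ S' →
      Cn T.toSimpleGraphInclusive S → IsEmb T D S φ →
      ∃ ψ : W → V, IsEmb T D S' ψ ∧ (∀ x ∈ S, ψ x = φ x) ∧
        c0 * ∑ t ∈ S' \ S, (Λ.filter fun l => ψ t ∈ A l).card ≤ n * (α * Λ.card) := by
  classical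
  intro n
  induction n with
  | zero =>
    intro S φ hn hne hSS hS h
    rw [card_eq_zero] at hn
    have hn' := hn
    rw [sdiff_eq_empty_iff_subset] at hn'
    obtain rfl := Subset.antisymm hSS hn'
    exact ⟨φ, h, fun _ _ => rfl, by simp⟩
  | succ n ih =>
    intro S φ hn hne hSS hS h
    obtain ⟨b, hb⟩ : (S' \ S).Nonempty := by rw [← card_pos]; omega
    rw [mem_sdiff] at hb
    obtain ⟨a, ha⟩ := hne
    obtain ⟨x, hx, t, ht, htS, -, hadj⟩ := hS'.boundary ha (hSS ha) hb.1 hb.2
    have hle := card_le_card hSS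
    have hC : c0 ≤ (nb D (sg T x t) (φ x) \ S.image φ).card := by
      have h1 := le_card_sdiff (S.image φ) (nb D (sg T x t) (φ x))
      rw [h.card_image] at h1
      have h2 := hκ (sg T x t) (φ x)
      omega
    obtain ⟨y, hyC, hyb⟩ := hits_step Λ A hA _ hC hc0
    rw [mem_sdiff] at hyC
    have hext := h.extend hT hG hS hx htS hadj hyC.1 hyC.2
    have hsd : S' \ insert t S = (S' \ S).erase t := by
      ext z
      simp only [mem_sdiff, mem_insert, mem_erase]
      tauto
    obtain ⟨ψ, hψ, hψ', hψs⟩ := ih (insert t S) (Function.update φ t y) (by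
        rw [hsd, card_erase_of_mem (mem_sdiff.2 ⟨ht, htS⟩)]
        omega) ⟨t, mem_insert_self _ _⟩ (insert_subset ht hSS) (hS.insert hx hadj) hext
    refine ⟨ψ, hψ, fun z hz => ?_, ?_⟩
    · rw [hψ' z (mem_insert_of_mem hz)]
      refine Function.update_of_ne (fun h => ?_) _ _
      rw [h] at hz
      exact htS hz
    · have ht' : t ∈ S' \ S := mem_sdiff.2 ⟨ht, htS⟩
      rw [← add_sum_erase _ _ ht', ← hsd]
      have hψt : ψ t = y := by
        rw [hψ' t (mem_insert_self _ _), Function.update_self]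
      rw [hψt, mul_add]
      calc c0 * (Λ.filter fun l => y ∈ A l).card +
            c0 * ∑ t ∈ S' \ insert t S, (Λ.filter fun l => ψ t ∈ A l).card
          ≤ α * Λ.card + n * (α * Λ.card) := Nat.add_le_add hyb hψs
        _ = (n + 1) * (α * Λ.card) := by ring

/-- The inequality for trees that are not contained. -/
theorem few_inner (hD : IsOrientedGraph D) {k m : ℕ}
    (hκ : ∀ s x, k ≤ (nb D s x).card + m) {v : V} (hv : ∀ s, k ≤ (nb D s v).card)
    (hT : IsOrientedTree k T) (hk : 2 ≤ k)
    (hP : (inn T.toSimpleGraphInclusive).card + m < k)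
    (hq : (inn T.toSimpleGraphInclusive).card + 3 * m ≤ k + 1)
    (hno : ¬ Contains D T) :
    ∃ b h : ℕ, b + 1 ≤ m ∧
      h * (k - m - (inn T.toSimpleGraphInclusive).card) ≤
        6 * m * (inn T.toSimpleGraphInclusive).card ∧
      k + 2 ≤ (inn T.toSimpleGraphInclusive).card + 4 * m + b + b * (m - b + h) := by
  classical
  obtain ⟨hTo, hTt, hTc⟩ := hT
  have hW : Fintype.card W = k + 1 := by rw [← Nat.card_eq_fintype_card]; exact hTc
  have hW3 : 3 ≤ Fintype.card W := by omega
  set G := T.toSimpleGraphInclusive with hGdef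
  have hcon := hTt.connected
  have hκ' : ∀ s x, k - m ≤ (nb D s x).card := by
    intro s x
    have := hκ s x
    omega
  have hpar : ∀ l ∉ inn G, par G l ∈ inn G := fun l hl => (par_spec hcon hW3 hl).1
  have hqc : (inn G)ᶜ.card = k + 1 - (inn G).card := by rw [card_compl, hW]
  -- the vertex with the largest number of leaves
  obtain ⟨z, hz, hzmax⟩ := exists_max_image (inn G) (lv G) (inn_nonempty hcon hW3)
  set b := lv G z with hb
  -- consequences of violators with `z` at `v`
  have key : ∀ φ : W → V, IsEmb T D (inn G) φ → φ z = v →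
      ∃ (S : Finset W) (J : Finset V), S ⊆ (inn G)ᶜ ∧ S.Nonempty ∧
      J.card + b ≤ k ∧ S.card + b ≤ (inn G)ᶜ.card ∧
      (inn G).image φ ⊆ J ∧
      (∀ l ∈ S, nb D (sg T (par G l) l) (φ (par G l)) ⊆ J) ∧
      ((inn G)ᶜ \ S).card + 1 ≤ m := by
    intro φ hφ hφz
    obtain ⟨S, J, hSL, hSne, hJ, hJi, hJn⟩ := violator hTo hcon hW3 hφ hno
    rw [← hGdef] at hSL hJ hJi
    simp only [← hGdef] at hJn
    have hSq : S.card ≤ (inn G)ᶜ.card := card_le_card hSL
    have hJk : J.card ≤ k := by omega
    -- no leaf of `z` is in `S`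
    have hzS : ∀ l ∈ S, par G l ≠ z := by
      intro l hl hlz
      have h1 := hJn l hl
      rw [hlz, hφz] at h1
      have h2 : insert v (nb D (sg T z l) v) ⊆ J := by
        intro y hy
        rw [mem_insert] at hy
        rcases hy with rfl | hy
        · rw [← hφz]; exact hJi (mem_image_of_mem _ hz)
        · exact h1 hy
      have h3 := card_le_card h2
      rw [card_insert_of_notMem (notMem_nb_self hD.1 _ _)] at h3
      have h4 := hv (sg T z l)
      omega
    have hSb : S.card + b ≤ (inn G)ᶜ.card := by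
      have h1 : S ∪ (inn G)ᶜ.filter (fun l => par G l = z) ⊆ (inn G)ᶜ :=
        union_subset hSL (filter_subset _ _)
      have h2 := card_le_card h1
      rw [card_union_of_disjoint] at h2
      · exact h2
      · rw [disjoint_left]
        intro l hl hl'
        exact hzS l hl (mem_filter.1 hl').2
    obtain ⟨l, hl⟩ := hSne
    have h1 := violator_card hκ hW hJ hJi (hJn l hl)
    have h2 : 0 < ((inn G).image φ \ nb D (sg T (par G l) l) (φ (par G l))).card := by
      rw [card_pos]
      exact ⟨φ (par G l), mem_sdiff.2 ⟨mem_image_of_mem _ (hpar l (mem_compl.1 (hSL hl))),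
        notMem_nb_self hD.1 _ _⟩⟩
    refine ⟨S, J, hSL, ⟨l, hl⟩, by omega, hSb, hJi, hJn, ?_⟩
    rw [card_sdiff_of_subset hSL]
    omega
  have hbm : b + 1 ≤ m := by
    obtain ⟨φ, hφ, hφ'⟩ := IsEmb.greedy hD.1 hκ' hTo hTt.isAcyclic (cn_inn G hcon) (by omega) _
      {z} (fun _ => v) rfl (singleton_nonempty z) (by simpa using hz) (Cn.single z)
      (IsEmb.single hTo.1 z v)
    obtain ⟨S, J, h1, h2, h3, h4, h5, h6, h7⟩ := key φ hφ (hφ' z (mem_singleton_self z))
    rw [card_sdiff_of_subset h1] at h7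
    omega
  -- the start
  obtain ⟨St, hSt, hzSt, hStc, hΛ1, hΛ2⟩ := exists_start hcon hz (M := 3 * m) (b := b) hzmax
    (by omega) (by omega) hpar
  obtain ⟨φ, hφ, hφ'⟩ := IsEmb.greedy hD.1 hκ' hTo hTt.isAcyclic hStc
      (by have := card_le_card hSt; omega) _
      {z} (fun _ => v) rfl (singleton_nonempty z) (by simpa using hzSt) (Cn.single z)
      (IsEmb.single hTo.1 z v)
  have hφz : φ z = v := hφ' z (mem_singleton_self z)
  set Λ := lst G St with hΛdef
  set N : W → Finset V := fun l => nb D (sg T (par G l) l) (φ (par G l)) with hN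
  set A : W → Finset V := fun l => aset D k b true (N l) ∪ aset D k b false (N l) with hA
  have hAc : ∀ l ∈ Λ, (A l).card ≤ 4 * m := by
    intro l _
    have h1 := card_union_le (aset D k b true (N l)) (aset D k b false (N l))
    have h2 := aset_card (b := b) hD hκ true (N l)
    have h3 := aset_card (b := b) hD hκ false (N l)
    have h4 : (A l).card = (aset D k b true (N l) ∪ aset D k b false (N l)).card := rfl
    omega
  set c0 := k - m - (inn G).card with hc0
  obtain ⟨ψ, hψ, hψφ, hψs⟩ := emb_hits hκ' hTo hTt.isAcyclic (cn_inn G hcon) Λ A hAc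
    (c0 := c0) (by omega) (by omega) _ St φ rfl ⟨z, hzSt⟩ hSt hStc hφ
  have hψz : ψ z = v := by rw [hψφ z hzSt, hφz]
  obtain ⟨S, J, hSL, hSne, hJk, hSb, hJi, hJn, hSm⟩ := key ψ hψ hψz
  -- a leaf with few hits
  have hex : ∃ l ∈ S ∩ Λ, (((inn G) \ St).filter fun t => ψ t ∈ A l).card * c0 ≤
      6 * m * (inn G).card := by
    by_contra hcon2
    push Not at hcon2
    have h1 : Λ.card ≤ (S ∩ Λ).card + ((inn G)ᶜ \ S).card := by
      have : Λ ⊆ (S ∩ Λ) ∪ ((inn G)ᶜ \ S) := by
        intro l hl
        rw [mem_union, mem_inter, mem_sdiff, mem_compl]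
        by_cases hlS : l ∈ S
        · exact Or.inl ⟨hlS, hl⟩
        · exact Or.inr ⟨(mem_lst.1 hl).1, hlS⟩
      exact (card_le_card this).trans (card_union_le _ _)
    have h2 : 2 * Λ.card ≤ 3 * (S ∩ Λ).card := by omega
    have h2' : (S ∩ Λ).Nonempty := by rw [← card_pos]; omega
    have h3 := sum_lt_sum_of_nonempty h2' hcon2
    rw [sum_const, smul_eq_mul, ← sum_mul] at h3
    have h4 : ∑ l ∈ S ∩ Λ, (((inn G) \ St).filter fun t => ψ t ∈ A l).card ≤
        ∑ t ∈ (inn G) \ St, (Λ.filter fun l => ψ t ∈ A l).card := by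
      calc ∑ l ∈ S ∩ Λ, (((inn G) \ St).filter fun t => ψ t ∈ A l).card
          ≤ ∑ l ∈ Λ, (((inn G) \ St).filter fun t => ψ t ∈ A l).card :=
            sum_le_sum_of_subset inter_subset_right
        _ = ∑ t ∈ (inn G) \ St, (Λ.filter fun l => ψ t ∈ A l).card := by
            simp only [card_filter]
            rw [sum_comm]
    have h5 : (∑ l ∈ S ∩ Λ, (((inn G) \ St).filter fun t => ψ t ∈ A l).card) * c0 ≤
        (inn G).card * (4 * m * Λ.card) := by
      calc (∑ l ∈ S ∩ Λ, (((inn G) \ St).filter fun t => ψ t ∈ A l).card) * c0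
          ≤ (∑ t ∈ (inn G) \ St, (Λ.filter fun l => ψ t ∈ A l).card) * c0 :=
            Nat.mul_le_mul_right _ h4
        _ = c0 * (∑ t ∈ (inn G) \ St, (Λ.filter fun l => ψ t ∈ A l).card) := mul_comm _ _
        _ ≤ ((inn G) \ St).card * (4 * m * Λ.card) := hψs
        _ ≤ (inn G).card * (4 * m * Λ.card) :=
            Nat.mul_le_mul_right _ (card_le_card sdiff_subset)
    have h6 : (inn G).card * (4 * m * Λ.card) ≤ (S ∩ Λ).card * (6 * m * (inn G).card) := by
      have h7 : 2 * (m * (inn G).card) * (2 * Λ.card) ≤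
          2 * (m * (inn G).card) * (3 * (S ∩ Λ).card) := Nat.mul_le_mul_left _ h2
      nlinarith
    omega
  obtain ⟨l, hl, hhit⟩ := hex
  rw [mem_inter] at hl
  set h := (((inn G) \ St).filter fun t => ψ t ∈ A l).card with hh
  refine ⟨b, h, hbm, hhit, ?_⟩
  -- the reference neighbourhood
  have hparSt : par G l ∈ St := (mem_lst.1 hl.2).2
  have hNJ : N l ⊆ J := by
    have h1 := hJn l hl.1
    rw [hψφ _ hparSt] at h1
    exact h1
  have hNc : k ≤ (N l).card + m := hκ _ _
  -- the leaf parents outside `St`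
  set B := ((inn G) \ St).filter (fun t => ∃ l' ∈ S, par G l' = t) with hB
  have hBc : B.card ≤ h + (m - b) := by
    have h1 : B ⊆ (((inn G) \ St).filter fun t => ψ t ∈ A l) ∪
        (B.filter fun t => ψ t ∉ N l) := by
      intro t ht
      rw [mem_union]
      by_cases htN : ψ t ∈ N l
      · left
        obtain ⟨ht1, l', hl', rfl⟩ := mem_filter.1 ht
        rw [mem_filter]
        refine ⟨ht1, ?_⟩
        have h2 := hJn l' hl'
        have h3 : ψ (par G l') ∈ aset D k b (sg T (par G l') l') (N l) := by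
          rw [aset, mem_filter]
          refine ⟨htN, ?_⟩
          have h4 : (nb D (sg T (par G l') l') (ψ (par G l')) \ N l).card + (N l).card ≤
              J.card := by
            rw [← card_union_of_disjoint sdiff_disjoint]
            apply card_le_card
            apply union_subset _ hNJ
            exact sdiff_subset.trans h2
          omega
        show ψ (par G l') ∈ aset D k b true (N l) ∪ aset D k b false (N l)
        rw [mem_union]
        cases hs : sg T (par G l') l'
        · rw [hs] at h3; exact Or.inr h3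
        · rw [hs] at h3; exact Or.inl h3
      · right
        rw [mem_filter]
        exact ⟨ht, htN⟩
    have h2 : (B.filter fun t => ψ t ∉ N l).card ≤ (J \ N l).card := by
      rw [← card_image_of_injOn (s := B.filter fun t => ψ t ∉ N l) (f := ψ)]
      · apply card_le_card
        intro y hy
        obtain ⟨t, ht, rfl⟩ := mem_image.1 hy
        rw [mem_filter] at ht
        rw [mem_sdiff]
        exact ⟨hJi (mem_image_of_mem _ (mem_sdiff.1 (mem_filter.1 ht.1).1).1), ht.2⟩
      · intro t ht t' ht' htt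
        have h3 := (mem_sdiff.1 (mem_filter.1 (mem_filter.1 (mem_coe.1 ht)).1).1).1
        have h4 := (mem_sdiff.1 (mem_filter.1 (mem_filter.1 (mem_coe.1 ht')).1).1).1
        exact hψ.inj t h3 t' h4 htt
    rw [card_sdiff_of_subset hNJ] at h2
    have h3 := (card_le_card h1).trans (card_union_le _ _)
    omega
  have hSc : S.card ≤ Λ.card + b * B.card := by
    have h1 : S ⊆ Λ ∪ B.biUnion (fun t => (inn G)ᶜ.filter (fun l => par G l = t)) := by
      intro l' hl'
      rw [mem_union]
      have h2 := hSL hl'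
      by_cases h3 : par G l' ∈ St
      · exact Or.inl (mem_lst.2 ⟨mem_compl.1 h2, h3⟩)
      · right
        rw [mem_biUnion]
        refine ⟨par G l', ?_, mem_filter.2 ⟨h2, rfl⟩⟩
        rw [hB, mem_filter, mem_sdiff]
        exact ⟨⟨hpar l' (mem_compl.1 h2), h3⟩, l', hl', rfl⟩
    refine (card_le_card h1).trans ((card_union_le _ _).trans (Nat.add_le_add_left ?_ _))
    rw [mul_comm]
    apply card_biUnion_le_card_mul
    intro t ht
    exact hzmax t (mem_sdiff.1 (mem_filter.1 ht).1).1
  rw [card_sdiff_of_subset hSL] at hSm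
  have h1 : b * B.card ≤ b * (m - b + h) := Nat.mul_le_mul_left _ (by omega)
  omega

end Pool.Agent.Lib.MP_47458b_co
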