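import Pool.Agent.Lib.MP_47458b_co.Upper.Leaves

/-!
Consequences of a Hall violator; the number of leaf parents.
-/

namespace Pool.Agent.Lib.MP_47458b_co

open Finset

variable {V W : Type} [Fintype V] [DecidableEq V] [Fintype W] [DecidableEq W]
  {D : Digraph V} {T : Digraph W} {G : SimpleGraph W}

/-- The vertices of `N` whose `s`-neighbourhood is almost contained in `N`. -/
noncomputable def aset (D : Digraph V) (k b : ℕ) (s : Bool) (N : Finset V) : Finset V :=
  N.filter fun x => (nb D s x \ N).card + N.card + b ≤ k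

theorem aset_card (hD : IsOrientedGraph D) {k m b : ℕ} (hκ : ∀ s x, k ≤ (nb D s x).card + m)
    (s : Bool) (N : Finset V) : (aset D k b s N).card ≤ 2 * (m - b) := by
  classical
  by_contra hcon
  push Not at hcon
  set A := aset D k b s N with hA
  have hAN : A ⊆ N := filter_subset _ _
  have h1 : ∀ x ∈ A, A.card + b ≤ (nb D s x ∩ A).card + m := by
    intro x hx
    have hx' := (mem_filter.1 hx).2
    have h2 : (nb D s x).card ≤ (nb D s x ∩ A).card + (N \ A).card + (nb D s x \ N).card := by
      refine (card_le_card (t := (nb D s x ∩ A) ∪ (N \ A) ∪ (nb D s x \ N)) ?_).trans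
        ((card_union_le _ _).trans (Nat.add_le_add_right (card_union_le _ _) _))
      intro y hy
      simp only [mem_union, mem_inter, mem_sdiff]
      by_cases hyN : y ∈ N
      · by_cases hyA : y ∈ A
        · exact Or.inl (Or.inl ⟨hy, hyA⟩)
        · exact Or.inl (Or.inr ⟨hyN, hyA⟩)
      · exact Or.inr ⟨hy, hyN⟩
    have h3 := card_sdiff_of_subset hAN
    have h4 := card_le_card hAN
    have h5 := hκ s x
    omega
  have h2 := sum_le_sum h1
  rw [sum_const, smul_eq_mul, sum_add_distrib, sum_const, smul_eq_mul] at h2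
  have h3 := arcs_inside hD s A
  have h4 : 0 < A.card := by omega
  have h5 : A.card * (A.card + 2 * b) ≤ A.card * (2 * m) := by nlinarith
  have h6 := Nat.le_of_mul_le_mul_left h5 h4
  omega

/-- The basic inequality for a violator. -/
theorem violator_card {k m : ℕ} (hκ : ∀ s x, k ≤ (nb D s x).card + m)
    (hW : Fintype.card W = k + 1) {φ : W → V} {S : Finset W} {J : Finset V}
    (h1 : J.card + 1 ≤ (inn G).card + S.card) (h2 : (inn G).image φ ⊆ J)
    {s : Bool} {x : V} (h3 : nb D s x ⊆ J) :
    (inn G)ᶜ.card + ((inn G).image φ \ nb D s x).card ≤ S.card + m := by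
  have h4 : (nb D s x).card + ((inn G).image φ \ nb D s x).card ≤ J.card := by
    rw [← card_union_of_disjoint disjoint_sdiff]
    apply card_le_card
    intro y hy
    rw [mem_union, mem_sdiff] at hy
    rcases hy with hy | hy
    · exact h3 hy
    · exact h2 hy.1
  have h5 := hκ s x
  have h6 : (inn G)ᶜ.card = k + 1 - (inn G).card := by rw [card_compl, hW]
  have h7 : (inn G).card ≤ k + 1 := by rw [← hW]; exact card_le_univ _
  omega

/-- The leaf parents. -/
noncomputable def lpar (G : SimpleGraph W) : Finset W := (inn G)ᶜ.image (par G)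

theorem inn_nonempty (hG : G.Connected) (hW : 3 ≤ Fintype.card W) : (inn G).Nonempty := by
  by_contra hcon
  rw [not_nonempty_iff_eq_empty] at hcon
  obtain ⟨l⟩ := hG.nonempty
  have hl : l ∉ inn G := by rw [hcon]; exact notMem_empty _
  have := (par_spec hG hW hl).1
  rw [hcon] at this
  exact notMem_empty _ this

/-- If the tree is not contained, it has few leaf parents. -/
theorem lpar_card (hD : IsOrientedGraph D) [Nonempty V] {k m : ℕ}
    (hκ : ∀ s x, k ≤ (nb D s x).card + m) (hT : IsOrientedTree k T) (hk : 2 ≤ k)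
    (hP : (inn T.toSimpleGraphInclusive).card + m ≤ k + 1) (hmk : m ≤ k)
    (hno : ¬ Contains D T) :
    (lpar T.toSimpleGraphInclusive).card + 1 ≤ 5 * m := by
  classical
  obtain ⟨hTo, hTt, hTc⟩ := hT
  have hW : Fintype.card W = k + 1 := by rw [← Nat.card_eq_fintype_card]; exact hTc
  have hW3 : 3 ≤ Fintype.card W := by omega
  set G := T.toSimpleGraphInclusive with hGdef
  have hcon := hTt.connected
  obtain ⟨r, hr⟩ := inn_nonempty hcon hW3
  obtain ⟨u⟩ := (inferInstance : Nonempty V)
  have hκ' : ∀ s x, k - m ≤ (nb D s x).card := by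
    intro s x
    have := hκ s x
    omega
  obtain ⟨φ, hφ, -⟩ := IsEmb.greedy hD.1 hκ' hTo hTt.isAcyclic (cn_inn G hcon) (by omega) _ {r}
    (fun _ => u) rfl (singleton_nonempty r) (by simpa using hr) (Cn.single r)
    (IsEmb.single hTo.1 r u)
  obtain ⟨S, J, hSL, hSne, hJ, hJi, hJn⟩ := violator hTo hcon hW3 hφ hno
  rw [← hGdef] at hSL hJ hJi
  simp only [← hGdef] at hJn
  have hSq : S.card ≤ (inn G)ᶜ.card := card_le_card hSL
  have hq : (inn G)ᶜ.card = k + 1 - (inn G).card := by rw [card_compl, hW]
  have hJk : J.card ≤ k := by omega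
  obtain ⟨l, hl⟩ := hSne
  have hparl : par G l ∈ inn G := (par_spec hcon hW3 (mem_compl.1 (hSL hl))).1
  have h1 := violator_card hκ hW hJ hJi (hJn l hl)
  have h2 : 0 < ((inn G).image φ \ nb D (sg T (par G l) l) (φ (par G l))).card := by
    rw [card_pos]
    exact ⟨φ (par G l), mem_sdiff.2 ⟨mem_image_of_mem _ hparl, notMem_nb_self hD.1 _ _⟩⟩
  have h3 : ((inn G)ᶜ \ S).card + 1 ≤ m := by
    rw [card_sdiff_of_subset hSL]; omega
  -- the leaf parents
  have h4 : (lpar G).image φ ⊆ aset D k 0 true J ∪ aset D k 0 false J ∪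
      (((inn G)ᶜ \ S).image (par G)).image φ := by
    intro y hy
    obtain ⟨t, ht, rfl⟩ := mem_image.1 hy
    obtain ⟨l', hl', rfl⟩ := mem_image.1 ht
    by_cases hl'S : l' ∈ S
    · rw [mem_union]
      left
      have h5 : φ (par G l') ∈ J :=
        hJi (mem_image_of_mem _ (par_spec hcon hW3 (mem_compl.1 hl')).1)
      have h6 := hJn l' hl'S
      have h7 : φ (par G l') ∈ aset D k 0 (sg T (par G l') l') J := by
        rw [aset, mem_filter]
        refine ⟨h5, ?_⟩
        rw [sdiff_eq_empty_iff_subset.2 h6, card_empty]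
        omega
      rw [mem_union]
      cases hs : sg T (par G l') l'
      · rw [hs] at h7; exact Or.inr h7
      · rw [hs] at h7; exact Or.inl h7
    · rw [mem_union]
      right
      exact mem_image_of_mem _ (mem_image_of_mem _ (mem_sdiff.2 ⟨hl', hl'S⟩))
  have h5 : ((lpar G).image φ).card = (lpar G).card := by
    apply card_image_of_injOn
    intro a ha b hb hab
    obtain ⟨l1, hl1, rfl⟩ := mem_image.1 (mem_coe.1 ha)
    obtain ⟨l2, hl2, rfl⟩ := mem_image.1 (mem_coe.1 hb)
    exact hφ.inj _ (par_spec hcon hW3 (mem_compl.1 hl1)).1 _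
      (par_spec hcon hW3 (mem_compl.1 hl2)).1 hab
  have h6 := card_le_card h4
  rw [h5] at h6
  have h7 := card_union_le (aset D k 0 true J ∪ aset D k 0 false J)
    ((((inn G)ᶜ \ S).image (par G)).image φ)
  have h8 := card_union_le (aset D k 0 true J) (aset D k 0 false J)
  have h9 := aset_card (b := 0) hD hκ true J
  have h10 := aset_card (b := 0) hD hκ false J
  have h11 : ((((inn G)ᶜ \ S).image (par G)).image φ).card ≤ ((inn G)ᶜ \ S).card :=
    card_image_le.trans card_image_le
  omega

end Pool.Agent.Lib.MP_47458b_co
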