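import Pool.Agent.Lib.MP_47458b_co.Upper.Cn

/-!
In a tree there are a vertex `r` and a union `R` of components of `G - r` with
`m + 1 ≤ |R| ≤ 2 m + 1`.
-/

namespace Pool.Agent.Lib.MP_47458b_co

open Finset

variable {W : Type} [DecidableEq W] [Fintype W] {G : SimpleGraph W}

theorem part_step (A : Finset W) {m : ℕ} {r : W} {R : Finset W} (hr : r ∉ R)
    (h1 : Cn G (insert r R)) (h2 : Cn G Rᶜ) (hc : 2 * m + 2 ≤ (R ∩ A).card) :
    ∃ r' : W, ∃ R' : Finset W, r' ∉ R' ∧ Cn G (insert r' R') ∧ Cn G R'ᶜ ∧
      m + 1 ≤ (R' ∩ A).card ∧ R'.card < R.card := by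
  classical
  have hne : R.Nonempty := by
    have := card_le_card (inter_subset_left (s₁ := R) (s₂ := A))
    rw [← Finset.card_pos]; omega
  obtain ⟨b, hb⟩ := hne
  obtain ⟨r1, hr1, s, hs, hs1, -, hadj⟩ := h1.boundary (S := {r}) (a := r) (b := b)
    (mem_singleton_self r) (mem_insert_self _ _) (mem_insert_of_mem hb)
    (by rw [mem_singleton]; rintro rfl; exact hr hb)
  rw [mem_singleton] at hr1 hs1
  subst hr1
  have hsR : s ∈ R := by
    rw [mem_insert] at hs
    exact hs.resolve_left hs1
  -- the component of `s` in `R`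
  set C : Finset W := R.filter (fun x => ∃ p : G.Walk s x, ∀ y ∈ p.support, y ∈ R) with hC
  have hCR : C ⊆ R := filter_subset _ _
  have hsC : s ∈ C := by
    rw [hC, mem_filter]
    exact ⟨hsR, SimpleGraph.Walk.nil, by simpa using hsR⟩
  have hrC : r1 ∉ C := fun h => hr (hCR h)
  have hCn : Cn G C := by
    apply Cn.of_root (r := s)
    intro x hx
    obtain ⟨-, p, hp⟩ := mem_filter.1 hx
    refine ⟨p.reverse, fun y hy => ?_⟩
    rw [SimpleGraph.Walk.support_reverse, List.mem_reverse] at hy
    rw [hC, mem_filter]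
    exact ⟨hp y hy, p.takeUntil y hy, fun z hz =>
      hp z (SimpleGraph.Walk.support_takeUntil_subset_support _ _ hz)⟩
  have hstep : ∀ (x z : W) (p : G.Walk x z), z = r1 → (∀ y ∈ p.support, y ∈ insert r1 R) →
      x ∉ C → ∃ q : G.Walk x z, ∀ y ∈ q.support, y ∈ insert r1 (R \ C) := by
    intro x z p
    induction p with
    | nil =>
      rintro rfl _ _
      exact ⟨SimpleGraph.Walk.nil, by simp⟩
    | @cons x y z hxy p ih =>
      intro hz hp hxC
      have hx : x ∈ insert r1 R := hp x (by simp)
      rw [mem_insert] at hx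
      rcases hx with rfl | hx
      · subst hz
        exact ⟨SimpleGraph.Walk.nil, by simp⟩
      · have hy : y ∉ C := by
          intro hy
          obtain ⟨hyR, q, hq⟩ := mem_filter.1 hy
          apply hxC
          rw [hC, mem_filter]
          refine ⟨hx, q.concat hxy.symm, fun w hw => ?_⟩
          rw [SimpleGraph.Walk.support_concat, List.mem_append,
            List.mem_singleton] at hw
          rcases hw with hw | rfl
          · exact hq w hw
          · exact hx
        obtain ⟨q, hq⟩ := ih hz (fun w hw => hp w (by simp [hw])) hy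
        refine ⟨SimpleGraph.Walk.cons hxy q, fun w hw => ?_⟩
        rw [SimpleGraph.Walk.support_cons, List.mem_cons] at hw
        rcases hw with rfl | hw
        · exact mem_insert_of_mem (mem_sdiff.2 ⟨hx, hxC⟩)
        · exact hq w hw
  have hD : Cn G (insert r1 (R \ C)) := by
    apply Cn.of_root (r := r1)
    intro x hx
    have hx' : x ∈ insert r1 R := by
      rw [mem_insert] at hx ⊢
      exact hx.imp id fun h => (mem_sdiff.1 h).1
    have hxC : x ∉ C := by
      rw [mem_insert] at hx
      rcases hx with rfl | hx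
      · exact hrC
      · exact (mem_sdiff.1 hx).2
    obtain ⟨p, hp⟩ := h1 x hx' r1 (mem_insert_self _ _)
    exact hstep x r1 p rfl hp hxC
  have hrc : r1 ∈ Rᶜ := mem_compl.2 hr
  by_cases hCR' : C = R
  · refine ⟨s, R.erase s, notMem_erase _ _, ?_, ?_, ?_, ?_⟩
    · rw [insert_erase hsR, ← hCR']
      exact hCn
    · have : (R.erase s)ᶜ = insert s Rᶜ := by
        ext x
        simp only [mem_compl, mem_erase, mem_insert, not_and_or, not_not]
      rw [this]
      exact h2.insert hrc hadj
    · have h3 : R ∩ A ⊆ insert s (R.erase s ∩ A) := by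
        intro x hx
        rw [mem_inter] at hx
        rw [mem_insert, mem_inter, mem_erase]
        by_cases hxs : x = s
        · exact Or.inl hxs
        · exact Or.inr ⟨⟨hxs, hx.1⟩, hx.2⟩
      have h4 := (card_le_card h3).trans (card_insert_le _ _)
      omega
    · exact card_erase_lt_of_mem hsR
  · have hlt : C.card < R.card := card_lt_card (lt_of_le_of_ne hCR hCR')
    by_cases hCm : m + 1 ≤ (C ∩ A).card
    · refine ⟨r1, C, hrC, hCn.insert hsC hadj.symm, ?_, hCm, hlt⟩
      have : Cᶜ = Rᶜ ∪ insert r1 (R \ C) := by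
        ext x
        simp only [mem_compl, mem_union, mem_insert, mem_sdiff]
        constructor
        · intro hx
          by_cases hxR : x ∈ R
          · exact Or.inr (Or.inr ⟨hxR, hx⟩)
          · exact Or.inl hxR
        · rintro (hx | rfl | ⟨_, hx⟩)
          · exact fun h => hx (hCR h)
          · exact hrC
          · exact hx
      rw [this]
      exact h2.union hD hrc (mem_insert_self _ _)
    · have hcard : (R \ C).card = R.card - C.card := card_sdiff_of_subset hCR
      have hCpos : 0 < C.card := card_pos.2 ⟨s, hsC⟩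
      have hcA : (R ∩ A).card ≤ ((R \ C) ∩ A).card + (C ∩ A).card := by
        refine (card_le_card (t := ((R \ C) ∩ A) ∪ (C ∩ A)) ?_).trans (card_union_le _ _)
        intro x hx
        rw [mem_inter] at hx
        rw [mem_union, mem_inter, mem_inter, mem_sdiff]
        by_cases hxC : x ∈ C
        · exact Or.inr ⟨hxC, hx.2⟩
        · exact Or.inl ⟨⟨hx.1, hxC⟩, hx.2⟩
      refine ⟨r1, R \ C, fun h => hr (mem_sdiff.1 h).1, hD, ?_, by omega, by omega⟩
      have : (R \ C)ᶜ = Rᶜ ∪ insert r1 C := by
        ext x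
        simp only [mem_compl, mem_union, mem_insert, mem_sdiff, not_and, not_not]
        constructor
        · intro hx
          by_cases hxR : x ∈ R
          · exact Or.inr (Or.inr (hx hxR))
          · exact Or.inl hxR
        · rintro (hx | rfl | hx)
          · exact fun h => absurd h hx
          · exact fun h => absurd h hr
          · exact fun _ => hx
      rw [this]
      exact h2.union (hCn.insert hsC hadj.symm) hrc (mem_insert_self _ _)

theorem exists_part' (hG : G.Connected) (A : Finset W) {m : ℕ} (hm : m + 2 ≤ A.card) :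
    ∃ r : W, ∃ R : Finset W, r ∉ R ∧ Cn G (insert r R) ∧ Cn G Rᶜ ∧ m + 1 ≤ (R ∩ A).card ∧
      (R ∩ A).card ≤ 2 * m + 1 := by
  classical
  have key : ∀ n : ℕ, ∀ r : W, ∀ R : Finset W, R.card = n → r ∉ R → Cn G (insert r R) →
      Cn G Rᶜ → m + 1 ≤ (R ∩ A).card →
      ∃ r : W, ∃ R : Finset W, r ∉ R ∧ Cn G (insert r R) ∧ Cn G Rᶜ ∧ m + 1 ≤ (R ∩ A).card ∧
        (R ∩ A).card ≤ 2 * m + 1 := by
    intro n
    induction n using Nat.strong_induction_on with
    | _ n ih =>
      intro r R hn hr h1 h2 h3
      by_cases h4 : (R ∩ A).card ≤ 2 * m + 1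
      · exact ⟨r, R, hr, h1, h2, h3, h4⟩
      · obtain ⟨r', R', hr', h1', h2', h3', h4'⟩ := part_step A hr h1 h2
          (by omega : 2 * m + 2 ≤ _)
        exact ih R'.card (by omega) r' R' rfl hr' h1' h2' h3'
  have hne : Nonempty W := hG.nonempty
  obtain ⟨r⟩ := hne
  refine key _ r (univ.erase r) rfl (notMem_erase _ _) ?_ ?_ ?_
  · rw [insert_erase (mem_univ r)]
    exact Cn.univ hG
  · have : (univ.erase r)ᶜ = ({r} : Finset W) := by
      ext x
      simp
    rw [this]
    exact Cn.single r
  · have h3 : A ⊆ insert r (univ.erase r ∩ A) := by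
      intro x hx
      rw [mem_insert, mem_inter, mem_erase]
      by_cases hxs : x = r
      · exact Or.inl hxs
      · exact Or.inr ⟨⟨hxs, mem_univ x⟩, hx⟩
    have h4 := (card_le_card h3).trans (card_insert_le _ _)
    omega

theorem exists_part (hG : G.Connected) {m : ℕ} (hm : m + 2 ≤ Fintype.card W) :
    ∃ r : W, ∃ R : Finset W, r ∉ R ∧ Cn G (insert r R) ∧ Cn G Rᶜ ∧ m + 1 ≤ R.card ∧
      R.card ≤ 2 * m + 1 := by
  obtain ⟨r, R, h⟩ := exists_part' hG univ (m := m) (by rwa [card_univ])
  rw [inter_univ] at h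
  exact ⟨r, R, h⟩

end Pool.Agent.Lib.MP_47458b_co
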