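import Pool.Agent.Lib.MP_47458b_co.Upper.Hall
import Pool.Agent.Lib.MP_47458b_co.Upper.Part

/-!
Trees with at least `33 m + 3` inner vertices and many leaves.
-/

namespace Pool.Agent.Lib.MP_47458b_co

open Finset

variable {V W : Type} [Fintype V] [DecidableEq V] [Fintype W] [DecidableEq W]
  {D : Digraph V} {T : Digraph W} {G : SimpleGraph W}

/-- Adding pairs such that few of them are inside the sets `N l`. -/
theorem pairs_mid (hD : IsOrientedGraph D) {k κ n : ℕ} (hκ : ∀ s x, κ ≤ (nb D s x).card)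
    (hn : n < κ) (hk : 5 * k ^ 2 ≤ 6 * (κ - n) ^ 2)
    (hT : IsOrientedGraph T) (hG : T.toSimpleGraphInclusive.IsAcyclic)
    {T0 : Finset W} (hT0 : Cn T.toSimpleGraphInclusive T0) (hTn : T0.card ≤ n)
    {St : Finset W} (hSt : St ⊆ T0) (hStc : Cn T.toSimpleGraphInclusive St) {r : W} (hr : r ∈ St)
    {φ0 : W → V} (hφ0 : IsEmb T D St φ0) {p g : ℕ}
    (Q : Finset W) (hQ : ∀ x ∈ T0, ¬ InnerIn T.toSimpleGraphInclusive T0 x → x ∈ Q)
    (hp : Q.card ≤ p)
    (hg : p + 2 * g ≤ (T0 \ St).card)
    {ι : Type} [DecidableEq ι] (F : Finset ι) (N : ι → Finset V) (hF : ∀ i ∈ F, (N i).card ≤ k) :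
    ∀ j ≤ g, ∃ S ⊆ T0, ∃ φ : W → V, Cn T.toSimpleGraphInclusive S ∧ St ⊆ S ∧
      S.card = St.card + 2 * j ∧ IsEmb T D S φ ∧ (∀ x ∈ St, φ x = φ0 x) ∧
      5 * ∑ i ∈ F, (j - ((S.image φ) \ N i).card) ≤ 3 * j * F.card := by
  classical
  intro j
  induction j with
  | zero =>
    intro _
    exact ⟨St, hSt, φ0, hStc, Subset.refl _, rfl, hφ0, fun _ _ => rfl, by simp⟩
  | succ j ih =>
    intro hj
    obtain ⟨S, hST, φ, hS, hStS, hcard, hφ, hφ', hsum⟩ := ih (by omega)
    have hle := card_le_card hST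
    have hrS : r ∈ S := hStS hr
    -- an inner vertex outside `S`
    obtain ⟨x, hx, hxS, hxin⟩ : ∃ x ∈ T0, x ∉ S ∧ InnerIn T.toSimpleGraphInclusive T0 x := by
      by_contra hcon
      push Not at hcon
      have h1 : T0 \ S ⊆ Q := by
        intro x hx
        rw [mem_sdiff] at hx
        exact hQ x hx.1 (hcon x hx.1 hx.2)
      have h2 := card_le_card h1
      rw [card_sdiff_of_subset hST] at h2
      rw [card_sdiff_of_subset hSt] at hg
      omega
    obtain ⟨q, hq, p', hp', hpS, hqp, c, hc, hcS, hpc⟩ := next_pair hG hT0 hS hST hrS hx hxS hxin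
    have hU : (S.image φ).card ≤ n := by
      rw [hφ.card_image]; omega
    obtain ⟨a, ha, haU, b, hb, hbU, hab⟩ := pair_choice hD hκ hn hk hU F N hF
      (fun _ => (1 : ℝ)) (fun _ _ => by norm_num) (φ q) (sg T q p') (sg T p' c)
    have hbad : 5 * (F.filter fun i => a ∈ N i ∧ b ∈ N i).card ≤ 3 * F.card := by
      have h1 : ∑ i ∈ F, (1 : ℝ) * (if a ∈ N i ∧ b ∈ N i then 1 else 1 / 2) =
          1 / 2 * F.card + 1 / 2 * (F.filter fun i => a ∈ N i ∧ b ∈ N i).card := by
        have h2 : ∀ i ∈ F, (1 : ℝ) * (if a ∈ N i ∧ b ∈ N i then 1 else 1 / 2) =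
            1 / 2 + (if a ∈ N i ∧ b ∈ N i then 1 / 2 else 0) := by
          intro i _
          split_ifs <;> norm_num
        rw [sum_congr rfl h2, sum_add_distrib, sum_const, nsmul_eq_mul, ← sum_filter, sum_const,
          nsmul_eq_mul]
        ring
      rw [h1, sum_const, nsmul_eq_mul, mul_one] at hab
      have h3 : 5 * ((F.filter fun i => a ∈ N i ∧ b ∈ N i).card : ℝ) ≤ 3 * F.card := by
        linarith
      exact_mod_cast h3
    have hφ1 := hφ.extend hT hG hS hq hpS hqp ha haU
    have hS1 : Cn T.toSimpleGraphInclusive (insert p' S) := hS.insert hq hqp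
    have hcS1 : c ∉ insert p' S := by
      rw [mem_insert, not_or]
      exact ⟨hpc.ne.symm, hcS⟩
    have himg1 : (insert p' S).image (Function.update φ p' a) = insert a (S.image φ) :=
      image_update hpS a
    have hbne : b ≠ a := fun h => notMem_nb_self hD.1 _ a (h ▸ hb)
    have hbS1 : b ∉ (insert p' S).image (Function.update φ p' a) := by
      rw [himg1, mem_insert, not_or]
      exact ⟨hbne, hbU⟩
    have hφ2 := hφ1.extend hT hG hS1 (mem_insert_self p' S) hcS1 hpc
      (y := b) (by rw [Function.update_self]; exact hb) hbS1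
    have himg2 : (insert c (insert p' S)).image
        (Function.update (Function.update φ p' a) c b) = insert b (insert a (S.image φ)) := by
      rw [image_update hcS1 b, himg1]
    refine ⟨insert c (insert p' S), ?_, Function.update (Function.update φ p' a) c b,
      hS1.insert (mem_insert_self p' S) hpc, ?_, ?_, hφ2, ?_, ?_⟩
    · intro y hy
      rw [mem_insert, mem_insert] at hy
      rcases hy with rfl | rfl | hy
      · exact hc
      · exact hp'
      · exact hST hy
    · exact hStS.trans ((subset_insert _ _).trans (subset_insert _ _))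
    · rw [card_insert_of_notMem hcS1, card_insert_of_notMem hpS, hcard]
      ring
    · intro y hy
      have hyS := hStS hy
      rw [Function.update_of_ne, Function.update_of_ne, hφ' y hy]
      · intro h
        exact hpS (h ▸ hyS)
      · intro h
        exact hcS (h ▸ hyS)
    · rw [himg2]
      have h1 : ∀ i ∈ F, (j + 1) - ((insert b (insert a (S.image φ))) \ N i).card ≤
          (j - ((S.image φ) \ N i).card) + (if a ∈ N i ∧ b ∈ N i then 1 else 0) := by
        intro i _
        have hsub : (S.image φ) \ N i ⊆ (insert b (insert a (S.image φ))) \ N i := by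
          apply sdiff_subset_sdiff _ (Subset.refl _)
          intro y hy
          exact mem_insert_of_mem (mem_insert_of_mem hy)
        split_ifs with hN
        · have := card_le_card hsub
          omega
        · have : ((S.image φ) \ N i).card < ((insert b (insert a (S.image φ))) \ N i).card := by
            apply card_lt_card
            rw [Finset.ssubset_iff_of_subset hsub]
            by_cases haN : a ∈ N i
            · have hbN : b ∉ N i := fun h => hN ⟨haN, h⟩
              exact ⟨b, mem_sdiff.2 ⟨mem_insert_self _ _, hbN⟩, fun h => hbU (mem_sdiff.1 h).1⟩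
            · exact ⟨a, mem_sdiff.2 ⟨mem_insert_of_mem (mem_insert_self _ _), haN⟩,
                fun h => haU (mem_sdiff.1 h).1⟩
          omega
      have h2 := sum_le_sum h1
      rw [sum_add_distrib, ← card_filter] at h2
      have h3 : 5 * ∑ i ∈ F, ((j + 1) - ((insert b (insert a (S.image φ))) \ N i).card) ≤
          3 * j * F.card + 3 * F.card := by omega
      calc _ ≤ 3 * j * F.card + 3 * F.card := h3
        _ = 3 * (j + 1) * F.card := by ring

theorem mid_inner (hD : IsOrientedGraph D) [Nonempty V] {k m : ℕ}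
    (hκ : ∀ s x, k ≤ (nb D s x).card + m) (hT : IsOrientedTree k T) (hk2 : 2 ≤ k)
    (hP1 : 33 * m + 3 ≤ (inn T.toSimpleGraphInclusive).card)
    (hPm : (inn T.toSimpleGraphInclusive).card + m < k)
    (hq : (inn T.toSimpleGraphInclusive).card + 20 * m ≤ k + 1)
    (hnum : 5 * k ^ 2 ≤ 6 * (k - m - (inn T.toSimpleGraphInclusive).card) ^ 2) :
    Contains D T := by
  classical
  by_contra hno
  have hlp := lpar_card hD hκ hT hk2 (by omega) (by omega) hno
  obtain ⟨hTo, hTt, hTc⟩ := hT
  have hW : Fintype.card W = k + 1 := by rw [← Nat.card_eq_fintype_card]; exact hTc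
  have hW3 : 3 ≤ Fintype.card W := by omega
  set G := T.toSimpleGraphInclusive with hGdef
  have hcon := hTt.connected
  have hκ' : ∀ s x, k - m ≤ (nb D s x).card := by
    intro s x
    have := hκ s x
    omega
  have hpar : ∀ l ∉ inn G, par G l ∈ inn G := fun l hl => (par_spec hcon hW3 hl).1
  have hqc : (inn G)ᶜ.card = k + 1 - (inn G).card := by rw [card_compl, hW]
  have hinn := cn_inn G hcon
  have hm0 : 0 < m := by omega
  -- leaves of the tree of inner vertices are leaf parents
  have hp : (lpar G).card ≤ 5 * m - 1 := by omega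
  have hQ : ∀ x ∈ inn G, ¬ InnerIn G (inn G) x → x ∈ lpar G := by
    intro x hx hxin
    obtain ⟨a, b, hab, ha, hb⟩ := mem_inn.1 hx
    have h1 : a ∉ inn G ∨ b ∉ inn G := by
      by_contra hcon2
      push Not at hcon2
      exact hxin ⟨a, hcon2.1, b, hcon2.2, hab, ha, hb⟩
    rw [lpar, mem_image]
    rcases h1 with h1 | h1
    · exact ⟨a, mem_compl.2 h1, (par_eq hcon hW3 h1 ha).symm⟩
    · exact ⟨b, mem_compl.2 h1, (par_eq hcon hW3 h1 hb).symm⟩
  -- a good start
  obtain ⟨St, hSt, hStc, hΛ, hrest⟩ : ∃ St ⊆ inn G, Cn G St ∧ 10 * m ≤ (lst G St).card ∧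
      11 * m + 1 ≤ ((inn G) \ St).card := by
    obtain ⟨r, R, hr, h1, h2, h3, h4⟩ := exists_part' hcon (inn G) (m := 11 * m) (by omega)
    have hX1 : Cn G ((insert r R) ∩ inn G) := h1.inter hTt.isAcyclic hinn
    have hX2 : Cn G (Rᶜ ∩ inn G) := h2.inter hTt.isAcyclic hinn
    have hunion : (inn G)ᶜ ⊆ lst G ((insert r R) ∩ inn G) ∪ lst G (Rᶜ ∩ inn G) := by
      intro l hl
      rw [mem_compl] at hl
      rw [mem_union, mem_lst, mem_lst, mem_inter, mem_inter, mem_compl, mem_insert]
      by_cases hlR : par G l ∈ R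
      · exact Or.inl ⟨hl, Or.inr hlR, hpar l hl⟩
      · exact Or.inr ⟨hl, hlR, hpar l hl⟩
    have h5 := (card_le_card hunion).trans (card_union_le _ _)
    by_cases h6 : 10 * m ≤ (lst G ((insert r R) ∩ inn G)).card
    · refine ⟨_, inter_subset_right, hX1, h6, ?_⟩
      have h7 : (inn G) \ ((insert r R) ∩ inn G) = (inn G) \ (insert r R) := by
        ext x
        simp only [mem_sdiff, mem_inter, not_and]
        tauto
      rw [h7]
      have h8 : inn G ⊆ ((inn G) \ (insert r R)) ∪ insert r (R ∩ inn G) := by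
        intro x hx
        rw [mem_union, mem_sdiff, mem_insert, mem_insert, mem_inter]
        by_cases hxr : x = r
        · exact Or.inr (Or.inl hxr)
        · by_cases hxR : x ∈ R
          · exact Or.inr (Or.inr ⟨hxR, hx⟩)
          · exact Or.inl ⟨hx, fun h => h.elim hxr hxR⟩
      have h9 := (card_le_card h8).trans (card_union_le _ _)
      have h10 := card_insert_le r (R ∩ inn G)
      omega
    · refine ⟨_, inter_subset_right, hX2, by omega, ?_⟩
      refine h3.trans (card_le_card ?_)
      intro x hx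
      rw [mem_inter] at hx
      rw [mem_sdiff, mem_inter, mem_compl]
      exact ⟨hx.2, fun h => h.1 hx.1⟩
  have hΛpos : 0 < (lst G St).card := by omega
  obtain ⟨r, hr⟩ : St.Nonempty := by
    obtain ⟨l, hl⟩ := card_pos.1 hΛpos
    exact ⟨par G l, (mem_lst.1 hl).2⟩
  obtain ⟨u⟩ := (inferInstance : Nonempty V)
  obtain ⟨φ0, hφ0, -⟩ := IsEmb.greedy hD.1 hκ' hTo hTt.isAcyclic hStc
      (by have := card_le_card hSt; omega) _
      {r} (fun _ => u) rfl (singleton_nonempty r) (by simpa using hr) (Cn.single r)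
      (IsEmb.single hTo.1 r u)
  set N : W → Finset V := fun l => nb D (sg T (par G l) l) (φ0 (par G l)) with hN
  set F := (lst G St).filter (fun l => (N l).card ≤ k) with hFdef
  obtain ⟨S, hST, φ, hS, hStS, hcard, hφ, hφ', hsum⟩ := pairs_mid hD hκ' (n := (inn G).card)
    (by omega) hnum hTo hTt.isAcyclic hinn le_rfl hSt hStc hr hφ0 (p := 5 * m - 1) (g := 3 * m + 1)
    (lpar G) hQ hp (by omega) F N (fun l hl => (mem_filter.1 hl).2) (3 * m + 1) le_rfl
  obtain ⟨ψ, hψ, hψφ⟩ := IsEmb.greedy hD.1 hκ' hTo hTt.isAcyclic hinn (by omega) _ S φ rfl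
    ⟨r, hStS hr⟩ hST hS hφ
  obtain ⟨S', J, hSL, hSne, hJ, hJi, hJn⟩ := violator hTo hcon hW3 hψ hno
  rw [← hGdef] at hSL hJ hJi
  simp only [← hGdef] at hJn
  have hSq : S'.card ≤ (inn G)ᶜ.card := card_le_card hSL
  have hJk : J.card ≤ k := by omega
  have hψ0 : ∀ x ∈ St, ψ x = φ0 x := fun x hx => by rw [hψφ x (hStS hx), hφ' x hx]
  -- leaves of the start in the violator
  have hin : ∀ l ∈ S' ∩ lst G St, N l ⊆ J := by
    intro l hl
    rw [mem_inter] at hl
    have h1 := hJn l hl.1
    rw [hψ0 _ (mem_lst.1 hl.2).2] at h1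
    exact h1
  have hinF : S' ∩ lst G St ⊆ F := by
    intro l hl
    rw [hFdef, mem_filter]
    exact ⟨(mem_inter.1 hl).2, (card_le_card (hin l hl)).trans hJk⟩
  have hfew : ∀ l ∈ S' ∩ lst G St, ((S.image φ) \ N l).card ≤ m := by
    intro l hl
    have h1 := violator_card (s := sg T (par G l) l) (x := φ0 (par G l)) hκ hW hJ hJi (hin l hl)
    have h2 : (S.image φ) \ N l ⊆ (inn G).image ψ \ nb D (sg T (par G l) l) (φ0 (par G l)) := by
      apply sdiff_subset_sdiff _ (Subset.refl _)
      intro y hy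
      obtain ⟨t, ht, rfl⟩ := mem_image.1 hy
      exact mem_image.2 ⟨t, hST ht, hψφ t ht⟩
    have h3 := card_le_card h2
    omega
  have hmiss : ((inn G)ᶜ \ S').card + 1 ≤ m := by
    obtain ⟨l, hl⟩ := hSne
    have h1 := violator_card hκ hW hJ hJi (hJn l hl)
    have h2 : 0 < ((inn G).image ψ \ nb D (sg T (par G l) l) (ψ (par G l))).card := by
      rw [card_pos]
      exact ⟨ψ (par G l), mem_sdiff.2 ⟨mem_image_of_mem _ (hpar l (mem_compl.1 (hSL hl))),
        notMem_nb_self hD.1 _ _⟩⟩
    rw [card_sdiff_of_subset hSL]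
    omega
  have hmany : (lst G St).card ≤ (S' ∩ lst G St).card + ((inn G)ᶜ \ S').card := by
    have : lst G St ⊆ (S' ∩ lst G St) ∪ ((inn G)ᶜ \ S') := by
      intro l hl
      rw [mem_union, mem_inter, mem_sdiff, mem_compl]
      by_cases hlS : l ∈ S'
      · exact Or.inl ⟨hlS, hl⟩
      · exact Or.inr ⟨(mem_lst.1 hl).1, hlS⟩
    exact (card_le_card this).trans (card_union_le _ _)
  have hFle : F.card ≤ (lst G St).card := card_filter_le _ _
  have h1 : (2 * m + 1) * (S' ∩ lst G St).card ≤
      ∑ i ∈ F, ((3 * m + 1) - ((S.image φ) \ N i).card) := by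
    calc (2 * m + 1) * (S' ∩ lst G St).card = ∑ i ∈ S' ∩ lst G St, (2 * m + 1) := by
          rw [sum_const, smul_eq_mul, mul_comm]
      _ ≤ ∑ i ∈ S' ∩ lst G St, ((3 * m + 1) - ((S.image φ) \ N i).card) := by
          apply sum_le_sum
          intro l hl
          have := hfew l hl
          omega
      _ ≤ ∑ i ∈ F, ((3 * m + 1) - ((S.image φ) \ N i).card) := sum_le_sum_of_subset hinF
  have h2 : 3 * (3 * m + 1) * F.card ≤ 3 * (3 * m + 1) * (lst G St).card :=
    Nat.mul_le_mul_left _ hFle
  have h3 : (lst G St).card + 1 ≤ (S' ∩ lst G St).card + m := by omega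
  have h4 : 5 * ((2 * m + 1) * (S' ∩ lst G St).card) ≤ 3 * (3 * m + 1) * (lst G St).card := by
    omega
  nlinarith

end Pool.Agent.Lib.MP_47458b_co
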