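import Mathlib

/-!
Numerical estimates for the upper bound.
-/

namespace Pool.Agent.Lib.MP_47458b_co

theorem num_sqrt {k m : ℕ} (hC : (m + 20000) ^ 2 ≤ 4 * k) :
    ∃ s : ℕ, s * s ≤ k ∧ k < (s + 1) * (s + 1) ∧ m + 20000 ≤ 2 * s + 1 := by
  obtain ⟨s, hs1, hs2⟩ : ∃ s : ℕ, s * s ≤ k ∧ k < (s + 1) * (s + 1) :=
    ⟨Nat.sqrt k, Nat.sqrt_le k, Nat.lt_succ_sqrt k⟩
  refine ⟨s, hs1, hs2, ?_⟩
  by_contra hcon
  push Not at hcon
  have h1 : 2 * (s + 1) ≤ m + 20000 := by omega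
  have h2 : (2 * (s + 1)) ^ 2 ≤ (m + 20000) ^ 2 := Nat.pow_le_pow_left h1 2
  nlinarith

theorem two_pow_bound (j : ℕ) (hj : 29 ≤ j) : 2 * (338 * (j + 1)) ^ 2 + 3 ≤ 2 ^ j := by
  induction j, hj using Nat.le_induction with
  | base => norm_num
  | succ j hj ih =>
    rw [pow_succ 2 j]
    nlinarith

theorem num_pow {k s l : ℕ} (hs2 : k < (s + 1) * (s + 1)) (hl2 : s < 338 * (l + 1))
    (hl3 : 29 ≤ l) : 2 * k + 3 ≤ 2 ^ l := by
  refine le_trans ?_ (two_pow_bound l hl3)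
  have h1 : (s + 1) * (s + 1) ≤ (338 * (l + 1)) * (338 * (l + 1)) :=
    Nat.mul_le_mul (by omega) (by omega)
  nlinarith

theorem num_g {k m s l : ℕ} (hs1 : s * s ≤ k) (hm : m + 20000 ≤ 2 * s + 1)
    (hl1 : 338 * l ≤ s) :
    26 * (13 * ((1 + l * (2 * m + 1) + m) / 4 + 1)) + 39 * m ≤ k := by
  have hlm : 338 * (l * (2 * m + 1)) ≤ s * (2 * m + 1) := by
    rw [← mul_assoc]; exact Nat.mul_le_mul_right _ hl1
  have hsm : s * (2 * m + 1) + 39997 * s ≤ 4 * (s * s) := by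
    have : 2 * m + 1 + 39997 ≤ 4 * s := by omega
    have h2 := Nat.mul_le_mul_left s this
    nlinarith
  have hsk : 10000 * s ≤ s * s := Nat.mul_le_mul_right _ (by omega)
  omega

theorem num_quad {k : ℕ} : ∀ z, 13 * z ≤ k → 5 * k ^ 2 ≤ 6 * (k - z) ^ 2 := by
  intro z hz
  obtain ⟨w, hw⟩ : ∃ w, w = k - z := ⟨_, rfl⟩
  have h1 : 12 * k ≤ 13 * w := by omega
  rw [← hw]
  nlinarith

theorem num_exp {k m l x y g : ℕ} (hkl : 2 * k + 3 ≤ 2 ^ l) (hx : x = 1 + l * (2 * m + 1) + m)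
    (hy2 : x ≤ 4 * y) (hy : 0 < y) (hg : g = 13 * y) :
    2 * (2 * k + 3) ^ (2 * m + 1) * 2 ^ m * 4 ^ g < 5 ^ g := by
  have h1 : 2 * (2 * k + 3) ^ (2 * m + 1) * 2 ^ m ≤ 2 ^ (4 * y) := by
    calc 2 * (2 * k + 3) ^ (2 * m + 1) * 2 ^ m ≤ 2 * (2 ^ l) ^ (2 * m + 1) * 2 ^ m := by
          gcongr
      _ = 2 ^ x := by
          rw [hx, ← pow_mul, pow_add, pow_add, pow_one]
      _ ≤ 2 ^ (4 * y) := Nat.pow_le_pow_right (by norm_num) hy2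
  calc 2 * (2 * k + 3) ^ (2 * m + 1) * 2 ^ m * 4 ^ g ≤ 2 ^ (4 * y) * 4 ^ g :=
        Nat.mul_le_mul_right _ h1
    _ = (2 ^ 4 * 4 ^ 13) ^ y := by rw [mul_pow, ← pow_mul, ← pow_mul, hg]
    _ < (5 ^ 13) ^ y := Nat.pow_lt_pow_left (by norm_num) (by omega)
    _ = 5 ^ g := by rw [← pow_mul, hg]

theorem num_few {k m P b h : ℕ} (hC : (m + 20000) ^ 2 ≤ 4 * k) (hB : P < 33 * m + 3)
    (hmk : 34 * m + 2 ≤ k / 100) (hb : b + 1 ≤ m) (hh : h * (k - m - P) ≤ 6 * m * P)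
    (hfin : k + 2 ≤ P + 4 * m + b + b * (m - b + h)) : False := by
  have h1 : 99 * k ≤ 100 * (k - m - P) := by omega
  have h2 : m * P ≤ m * (35 * m) := Nat.mul_le_mul_left _ (by omega)
  have h3 : m * m ≤ 4 * k := by nlinarith
  have h4 : h ≤ 848 := by
    by_contra hcon
    push Not at hcon
    have h5 : 849 * (k - m - P) ≤ h * (k - m - P) := Nat.mul_le_mul_right _ (by omega)
    nlinarith
  have h5 : 4 * (b * (m - b)) ≤ m * m := by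
    obtain ⟨c, hc⟩ : ∃ c, m = b + c := ⟨m - b, by omega⟩
    have : m - b = c := by omega
    rw [this, hc]
    zify
    nlinarith [sq_nonneg ((b : ℤ) - c)]
  have h6 : b * h ≤ m * 848 := Nat.mul_le_mul (by omega) h4
  have h7 : b * (m - b + h) = b * (m - b) + b * h := mul_add _ _ _
  nlinarith

end Pool.Agent.Lib.MP_47458b_co
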