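import Pool.Agent.Lib.MP_47458b_co.Upper.ManyInner
import Pool.Agent.Lib.MP_47458b_co.Upper.Mid
import Pool.Agent.Lib.MP_47458b_co.Upper.Few
import Pool.Agent.Lib.MP_47458b_co.Upper.Numbers

/-!
The upper bound `f k = k - 2 √k + 20000` for oriented graphs.
-/

namespace Pool.Agent.Lib.MP_47458b_co

open Finset

variable {V W : Type} [Fintype V] [DecidableEq V] [Fintype W] [DecidableEq W]
  {D : Digraph V} {T : Digraph W}

theorem main_nat (hD : IsOrientedGraph D) {k m : ℕ}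
    (hκ : ∀ s x, k ≤ (nb D s x).card + m) {v : V} (hv : ∀ s, k ≤ (nb D s v).card)
    (hT : IsOrientedTree k T) (hC : (m + 20000) ^ 2 ≤ 4 * k) : Contains D T := by
  classical
  have : Nonempty V := ⟨v⟩
  obtain ⟨s, hs1, hs2, hm⟩ := num_sqrt hC
  obtain ⟨l, hl⟩ : ∃ l, l = s / 338 := ⟨_, rfl⟩
  have hl1 : 338 * l ≤ s := by omega
  have hl2 : s < 338 * (l + 1) := by omega
  have hl3 : 29 ≤ l := by omega
  have hkl := num_pow hs2 hl2 hl3
  have hgm := num_g hs1 hm hl1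
  obtain ⟨x, hx⟩ : ∃ x, x = 1 + l * (2 * m + 1) + m := ⟨_, rfl⟩
  rw [← hx] at hgm
  obtain ⟨y, hy⟩ : ∃ y, y = x / 4 + 1 := ⟨_, rfl⟩
  rw [← hy] at hgm
  obtain ⟨g, hg⟩ : ∃ g, g = 13 * y := ⟨_, rfl⟩
  rw [← hg] at hgm
  have hsk : 10000 * s ≤ k := (Nat.mul_le_mul_right s (by omega : 10000 ≤ s)).trans hs1
  obtain ⟨P, hP⟩ : ∃ P, P = (inn T.toSimpleGraphInclusive).card := ⟨_, rfl⟩
  by_cases hA : 2 * g + 2 * m + 1 ≤ P
  · refine many_inner hD (g := g) hκ hT (num_exp hkl hx (by omega) (by omega) hg) (by omega) ?_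
      (inn T.toSimpleGraphInclusive) (fun x hx => mem_inn.1 hx) (by omega)
    rw [Nat.sub_sub]
    exact num_quad _ (by omega)
  · by_cases hB : 33 * m + 3 ≤ P
    · refine mid_inner hD hκ hT (by omega) (by omega) (by omega) (by omega) ?_
      rw [Nat.sub_sub]
      exact num_quad _ (by omega)
    · by_contra hno
      obtain ⟨b, h, hb, hh, hfin⟩ := few_inner hD hκ hv hT (by omega) (by omega) (by omega) hno
      rw [← hP] at hh hfin
      exact num_few hC (by omega) (by omega) hb hh hfin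

end Pool.Agent.Lib.MP_47458b_co
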