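import Pool.Agent.Lib.MP_47458b_co.Upper.Spread
import Pool.Agent.Lib.MP_47458b_co.Upper.Part

/-!
Trees with many inner vertices are contained in every oriented graph of large semidegree.
-/

namespace Pool.Agent.Lib.MP_47458b_co

open Finset

variable {V W : Type} [Fintype V] [DecidableEq V] [Fintype W] [DecidableEq W]
  {D : Digraph V} {T : Digraph W}

/-- The last part: everything in `R` is embedded into the ball. -/
theorem last_part {k m : ℕ} (hκ : ∀ s x, k ≤ (nb D s x).card + m)
    (hT : IsOrientedGraph T) (hG : T.toSimpleGraphInclusive.IsAcyclic)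
    (hW : Fintype.card W = k + 1)
    {r : W} {R : Finset W} (hr : r ∉ R) (h1 : Cn T.toSimpleGraphInclusive (insert r R))
    (h2 : Cn T.toSimpleGraphInclusive Rᶜ) {M : ℕ} (hM : R.card ≤ M) {u : V}
    {φ : W → V} (hφ : IsEmb T D Rᶜ φ) (hφr : φ r = u)
    (hsp : ∀ y ∈ ball D k u M, ∀ s, (nb D s y).card ≤ k →
      m + 1 ≤ ((Rᶜ.image φ) \ nb D s y).card) :
    ∀ (n : ℕ) (Q : Finset W), (R \ Q).card = n → Q ⊆ R → Cn T.toSimpleGraphInclusive (insert r Q) →
      ∀ ψ : W → V, IsEmb T D (Rᶜ ∪ Q) ψ → (∀ x ∈ Rᶜ, ψ x = φ x) →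
      (∀ x ∈ insert r Q, ψ x ∈ ball D k u Q.card) → Contains D T := by
  intro n
  induction n with
  | zero =>
    intro Q hn hQR hQ ψ hψ hψφ hball
    rw [card_eq_zero, sdiff_eq_empty_iff_subset] at hn
    obtain rfl := Subset.antisymm hQR hn
    have : (Qᶜ ∪ Q : Finset W) = univ := by
      ext x; simp only [mem_union, mem_compl, mem_univ, iff_true]; tauto
    rw [this] at hψ
    exact hψ.contains
  | succ n ih =>
    intro Q hn hQR hQ ψ hψ hψφ hball
    obtain ⟨b, hb⟩ : (R \ Q).Nonempty := by rw [← card_pos]; omega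
    rw [mem_sdiff] at hb
    obtain ⟨x, hx, t, ht, htQ, -, hadj⟩ := h1.boundary (S := insert r Q) (a := r) (b := b)
      (mem_insert_self _ _) (mem_insert_self _ _) (mem_insert_of_mem hb.1)
      (by rw [mem_insert, not_or]; exact ⟨fun h => hr (h ▸ hb.1), hb.2⟩)
    rw [mem_insert, not_or] at htQ
    have htR : t ∈ R := (mem_insert.1 ht).resolve_left htQ.1
    have htS : t ∉ Rᶜ ∪ Q := by
      rw [mem_union, mem_compl, not_or, not_not]
      exact ⟨htR, htQ.2⟩
    have hrc : r ∈ Rᶜ := mem_compl.2 hr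
    have hxS : x ∈ Rᶜ ∪ Q := by
      rw [mem_insert] at hx
      rcases hx with rfl | hx
      · exact mem_union_left _ hrc
      · exact mem_union_right _ hx
    have hS : Cn T.toSimpleGraphInclusive (Rᶜ ∪ Q) := by
      have : (Rᶜ ∪ Q : Finset W) = Rᶜ ∪ insert r Q := by
        ext y
        simp only [mem_union, mem_insert]
        constructor
        · rintro (h | h)
          · exact Or.inl h
          · exact Or.inr (Or.inr h)
        · rintro (h | rfl | h)
          · exact Or.inl h
          · exact Or.inl hrc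
          · exact Or.inr h
      rw [this]
      exact h2.union hQ hrc (mem_insert_self _ _)
    have hQc : Q.card < R.card := card_lt_card ((Finset.ssubset_iff_of_subset hQR).2 ⟨b, hb⟩)
    have hScard : (Rᶜ ∪ Q).card ≤ k := by
      have h3 : (Rᶜ ∪ Q).card ≤ (univ.erase t).card := by
        apply card_le_card
        intro y hy
        exact mem_erase.2 ⟨fun h => htS (h ▸ hy), mem_univ y⟩
      rw [card_erase_of_mem (mem_univ t), card_univ, hW] at h3
      exact h3
    -- a free neighbour in the ball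
    obtain ⟨y, hy, hyS⟩ : ∃ y ∈ nst D k (sg T x t) (ψ x), y ∉ (Rᶜ ∪ Q).image ψ := by
      by_contra hcon
      push Not at hcon
      set s := sg T x t
      have himg : ((Rᶜ ∪ Q).image ψ).card ≤ k := by
        rw [hψ.card_image]; exact hScard
      have h3 : (nb D s (ψ x)).card ≤ k := by
        by_contra h3
        have h4 := nst_card h3
        have h5 := card_le_card (show nst D k s (ψ x) ⊆ (Rᶜ ∪ Q).image ψ from hcon)
        omega
      have h4 : nb D s (ψ x) ⊆ (Rᶜ ∪ Q).image ψ := by
        rw [← nst_eq h3]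
        exact hcon
      have h5 : m + 1 ≤ ((Rᶜ.image φ) \ nb D s (ψ x)).card :=
        hsp _ (ball_mono (by omega) (hball x hx)) s h3
      have h6 : (Rᶜ.image φ) \ nb D s (ψ x) ⊆ ((Rᶜ ∪ Q).image ψ) \ nb D s (ψ x) := by
        apply sdiff_subset_sdiff _ (Subset.refl _)
        intro z hz
        obtain ⟨w, hw, rfl⟩ := mem_image.1 hz
        exact mem_image.2 ⟨w, mem_union_left _ hw, hψφ w hw⟩
      have h7 := card_le_card h6
      rw [card_sdiff_of_subset h4] at h7
      have h8 := hκ s (ψ x)
      omega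
    have hadj' := hψ.extend hT hG hS hxS htS hadj (nst_subset _ _ _ hy) hyS
    refine ih (insert t Q) ?_ (insert_subset htR hQR) ?_ (Function.update ψ t y) ?_ ?_ ?_
    · have : R \ insert t Q = (R \ Q).erase t := by
        ext z
        simp only [mem_sdiff, mem_insert, mem_erase]
        tauto
      rw [this, card_erase_of_mem (mem_sdiff.2 ⟨htR, htQ.2⟩)]
      omega
    · have : (insert r (insert t Q) : Finset W) = insert t (insert r Q) := Finset.insert_comm _ _ _
      rw [this]
      exact hQ.insert hx hadj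
    · have : (Rᶜ ∪ insert t Q : Finset W) = insert t (Rᶜ ∪ Q) := by
        rw [union_insert]
      rw [this]
      exact hadj'
    · intro z hz
      rw [Function.update_of_ne, hψφ z hz]
      intro h
      rw [h, mem_compl] at hz
      exact hz htR
    · intro z hz
      rw [card_insert_of_notMem htQ.2]
      by_cases hzt : z = t
      · rw [hzt, Function.update_self]
        exact ball_step (hball x hx) hy
      · rw [Function.update_of_ne hzt]
        apply ball_mono (Nat.le_succ _)
        apply hball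
        rw [mem_insert, mem_insert] at hz
        rw [mem_insert]
        tauto

/-- Trees with many inner vertices. -/
theorem many_inner (hD : IsOrientedGraph D) [Nonempty V] {k m g : ℕ}
    (hκ : ∀ s x, k ≤ (nb D s x).card + m) (hT : IsOrientedTree k T)
    (hg : 2 * (2 * k + 3) ^ (2 * m + 1) * 2 ^ m * 4 ^ g < 5 ^ g)
    (hn : 2 * g + m < k) (hk : 5 * k ^ 2 ≤ 6 * (k - m - 2 * g) ^ 2)
    (I : Finset W) (hI : ∀ x ∈ I, Inner T.toSimpleGraphInclusive x)
    (hIg : 2 * g + 2 * m + 1 ≤ I.card) : Contains D T := by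
  classical
  obtain ⟨hTo, hTt, hTc⟩ := hT
  have hW : Fintype.card W = k + 1 := by rw [← Nat.card_eq_fintype_card]; exact hTc
  obtain ⟨r, R, hr, h1, h2, h3, h4⟩ := exists_part (m := m) hTt.connected (by omega)
  have hcl : ∀ x ∈ Rᶜ, x ≠ r → ∀ y, T.toSimpleGraphInclusive.Adj x y → y ∈ Rᶜ := by
    intro x hx hxr y hxy
    rw [mem_compl]
    intro hy
    exact Cn.no_edge hTt.isAcyclic hr h1 h2 (mem_compl.1 hx) hxr hy hxy
  obtain ⟨u⟩ := (inferInstance : Nonempty V)
  -- the family
  set B := ball D k u (2 * m + 1) with hB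
  set F : Finset (Finset V) := ((B.image (nb D true)) ∪ (B.image (nb D false))).filter
    (fun N => N.card ≤ k) with hF
  have hFcard : F.card ≤ 2 * (2 * k + 3) ^ (2 * m + 1) := by
    calc F.card ≤ ((B.image (nb D true)) ∪ (B.image (nb D false))).card := card_filter_le _ _
      _ ≤ (B.image (nb D true)).card + (B.image (nb D false)).card := card_union_le _ _
      _ ≤ B.card + B.card := Nat.add_le_add card_image_le card_image_le
      _ ≤ 2 * (2 * k + 3) ^ (2 * m + 1) := by
          have := ball_card (D := D) k u (2 * m + 1)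
          rw [← hB] at this
          omega
  have hκ' : ∀ s x, k - m ≤ (nb D s x).card := by
    intro s x
    have := hκ s x
    omega
  obtain ⟨S, hST, φ, hS, hrS, hcard, hφ, hφr, hsum⟩ := spread_emb (κ := k - m) (k := k) hD hκ'
    (g := g) (by omega) hk hTo hTt.isAcyclic h2 (mem_compl.2 hr) hcl (I \ R)
    (fun x hx => ⟨mem_compl.2 (mem_sdiff.1 hx).2, hI x (mem_sdiff.1 hx).1⟩)
    (by have := le_card_sdiff R I; omega) u F (fun N hN => (mem_filter.1 hN).2) g le_rfl
  -- every set of the family is left `m + 1` times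
  have hleft : ∀ N ∈ F, m + 1 ≤ ((S.image φ) \ N).card := by
    intro N hN
    by_contra hcon
    have h5 : (1 / 2 : ℝ) ^ m ≤ ∑ N ∈ F, (1 / 2 : ℝ) ^ ((S.image φ) \ N).card := by
      refine le_trans ?_ (single_le_sum (f := fun N => (1 / 2 : ℝ) ^ ((S.image φ) \ N).card)
        (fun N _ => by positivity) hN)
      exact pow_le_pow_of_le_one (by norm_num) (by norm_num) (by omega)
    have h6 : (4 / 5 : ℝ) ^ g * F.card < (1 / 2) ^ m := by
      have h7 : (F.card : ℝ) ≤ 2 * (2 * k + 3) ^ (2 * m + 1) := by exact_mod_cast hFcard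
      have h8 : (2 * (2 * k + 3) ^ (2 * m + 1) * 2 ^ m * 4 ^ g : ℝ) < 5 ^ g := by
        exact_mod_cast hg
      have h9 : (0 : ℝ) < 5 ^ g := by positivity
      have h10 : (0 : ℝ) < 2 ^ m := by positivity
      rw [div_pow, div_pow, one_pow, div_mul_eq_mul_div, div_lt_div_iff₀ h9 h10, one_mul]
      calc (4 : ℝ) ^ g * F.card * 2 ^ m ≤ 4 ^ g * (2 * (2 * k + 3) ^ (2 * m + 1)) * 2 ^ m := by
            gcongr
        _ = 2 * (2 * k + 3) ^ (2 * m + 1) * 2 ^ m * 4 ^ g := by ring
        _ < 5 ^ g := h8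
    linarith
  -- the rest of the complement of `R`
  obtain ⟨ψ, hψ, hψφ⟩ := IsEmb.greedy hD.1 hκ' hTo hTt.isAcyclic h2
    (by rw [card_compl]; omega) _ S φ rfl ⟨r, hrS⟩ hST hS hφ
  have hψr : ψ r = u := by rw [hψφ r hrS, hφr]
  refine last_part hκ hTo hTt.isAcyclic hW hr h1 h2 h4 (u := u) (φ := ψ) hψ hψr ?_ _ ∅ rfl
    (empty_subset _) ?_ ψ ?_ (fun _ _ => rfl) ?_
  · intro y hy s hys
    have h5 : nb D s y ∈ F := by
      rw [hF, mem_filter, mem_union]
      refine ⟨?_, hys⟩
      cases s
      · exact Or.inr (mem_image_of_mem _ hy)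
      · exact Or.inl (mem_image_of_mem _ hy)
    refine (hleft _ h5).trans (card_le_card ?_)
    apply sdiff_subset_sdiff _ (Subset.refl _)
    intro z hz
    obtain ⟨w, hw, rfl⟩ := mem_image.1 hz
    exact mem_image.2 ⟨w, hST hw, hψφ w hw⟩
  · exact Cn.single r
  · rw [union_empty]; exact hψ
  · intro x hx
    simp only [mem_insert, notMem_empty, or_false] at hx
    subst hx
    rw [hψr]
    simp [ball]

end Pool.Agent.Lib.MP_47458b_co
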