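import Pool.Agent.Lib.MP_47458b_co.Upper.Emb

/-!
Choosing two consecutive vertices such that a weighted family of sets is left often.
-/

namespace Pool.Agent.Lib.MP_47458b_co

open Finset

variable {V : Type} [Fintype V] [DecidableEq V] {D : Digraph V}

/-- In an oriented graph a vertex set of size `n` spans at most `n ^ 2 / 2` arcs. -/
theorem arcs_inside (hD : IsOrientedGraph D) (s : Bool) (N : Finset V) :
    2 * ∑ x ∈ N, (nb D s x ∩ N).card ≤ N.card * N.card := by
  classical
  have h1 : ∀ x, (nb D true x ∩ N).card = ∑ y ∈ N, if D.Adj x y then 1 else 0 := by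
    intro x
    rw [← card_filter]
    congr 1
    ext y
    simp only [mem_inter, mem_nb_true, mem_filter]
    tauto
  have h2 : ∀ x, (nb D false x ∩ N).card = ∑ y ∈ N, if D.Adj y x then 1 else 0 := by
    intro x
    rw [← card_filter]
    congr 1
    ext y
    simp only [mem_inter, mem_nb_false, mem_filter]
    tauto
  have h3 : ∑ x ∈ N, (nb D true x ∩ N).card = ∑ x ∈ N, (nb D false x ∩ N).card := by
    simp only [h1, h2]
    rw [sum_comm]
  have h4 : ∑ x ∈ N, (nb D true x ∩ N).card + ∑ x ∈ N, (nb D false x ∩ N).card ≤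
      N.card * N.card := by
    rw [← sum_add_distrib]
    calc ∑ x ∈ N, ((nb D true x ∩ N).card + (nb D false x ∩ N).card) ≤ ∑ x ∈ N, N.card := by
          apply sum_le_sum
          intro x _
          rw [← card_union_of_disjoint]
          · apply card_le_card
            intro y hy
            rw [mem_union, mem_inter, mem_inter] at hy
            rcases hy with hy | hy
            · exact hy.2
            · exact hy.2
          · rw [disjoint_left]
            intro y hy hy'
            rw [mem_inter] at hy hy'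
            exact hD.2 _ _ (mem_nb_true.1 hy.1) (mem_nb_false.1 hy'.1)
      _ = N.card * N.card := by rw [sum_const, smul_eq_mul]
  cases s <;> omega

theorem pair_choice {ι : Type} (hD : IsOrientedGraph D) {k κ n : ℕ} (hκ : ∀ s x, κ ≤ (nb D s x).card)
    (hn : n < κ) (hk : 5 * k ^ 2 ≤ 6 * (κ - n) ^ 2) {U : Finset V} (hU : U.card ≤ n)
    (F : Finset ι) (N : ι → Finset V) (hF : ∀ i ∈ F, (N i).card ≤ k) (w : ι → ℝ)
    (hw : ∀ i ∈ F, 0 ≤ w i) (z : V) (s t : Bool) :
    ∃ x ∈ nb D s z, x ∉ U ∧ ∃ y ∈ nb D t x, y ∉ U ∧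
      ∑ i ∈ F, w i * (if x ∈ N i ∧ y ∈ N i then 1 else 1 / 2) ≤ 4 / 5 * ∑ i ∈ F, w i := by
  classical
  set Wt : ℝ := ∑ i ∈ F, w i with hWt
  have hWt0 : 0 ≤ Wt := sum_nonneg hw
  set c0 : ℕ := κ - n with hc0
  have hc0pos : 0 < c0 := by omega
  have hcard : ∀ (s : Bool) (x : V), c0 ≤ (nb D s x \ U).card := by
    intro s x
    have h1 := le_card_sdiff U (nb D s x)
    have h2 := hκ s x
    omega
  by_contra hcon
  push Not at hcon
  -- first average
  have h1 : ∀ x ∈ nb D s z \ U, 3 / 5 * Wt * c0 <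
      ∑ i ∈ F, w i * (if x ∈ N i then ((nb D t x ∩ N i).card : ℝ) else 0) := by
    intro x hx
    rw [mem_sdiff] at hx
    set Cx := nb D t x \ U with hCx
    have hCxpos : 0 < Cx.card := lt_of_lt_of_le hc0pos (hcard t x)
    have h2 : ∑ y ∈ Cx, (4 / 5 * Wt) <
        ∑ y ∈ Cx, ∑ i ∈ F, w i * (if x ∈ N i ∧ y ∈ N i then (1 : ℝ) else 1 / 2) := by
      apply sum_lt_sum_of_nonempty (card_pos.1 hCxpos)
      intro y hy
      rw [mem_sdiff] at hy
      exact hcon x hx.1 hx.2 y hy.1 hy.2
    rw [sum_const, nsmul_eq_mul, sum_comm] at h2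
    have h3 : ∀ i ∈ F, ∑ y ∈ Cx, w i * (if x ∈ N i ∧ y ∈ N i then (1 : ℝ) else 1 / 2) ≤
        w i * (Cx.card / 2) + w i * (if x ∈ N i then ((nb D t x ∩ N i).card : ℝ) else 0) / 2 := by
      intro i hi
      rw [← mul_sum, mul_div_assoc, ← mul_add]
      apply mul_le_mul_of_nonneg_left _ (hw i hi)
      by_cases hxN : x ∈ N i
      · simp only [hxN, true_and, if_true]
        have h4 : ∀ y ∈ Cx, (if y ∈ N i then (1 : ℝ) else 1 / 2) =
            1 / 2 + (if y ∈ N i then 1 / 2 else 0) := by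
          intro y _
          split_ifs <;> norm_num
        rw [sum_congr rfl h4, sum_add_distrib, sum_const, nsmul_eq_mul, ← sum_filter, sum_const,
          nsmul_eq_mul]
        have h5 : ((Cx.filter (fun y => y ∈ N i)).card : ℝ) ≤ ((nb D t x ∩ N i).card : ℝ) := by
          have : (Cx.filter (fun y => y ∈ N i)) ⊆ nb D t x ∩ N i := by
            intro y hy
            rw [mem_filter, hCx, mem_sdiff] at hy
            exact mem_inter.2 ⟨hy.1.1, hy.2⟩
          exact_mod_cast card_le_card this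
        linarith
      · simp only [hxN, false_and, if_false]
        rw [sum_const, nsmul_eq_mul]
        linarith
    have h4 := lt_of_lt_of_le h2 (sum_le_sum h3)
    rw [sum_add_distrib, ← sum_mul, ← sum_div, ← hWt] at h4
    have h5 : (c0 : ℝ) ≤ Cx.card := by exact_mod_cast hcard t x
    have h6 : (3 / 5 * Wt) * c0 ≤ (3 / 5 * Wt) * Cx.card :=
      mul_le_mul_of_nonneg_left h5 (by linarith)
    nlinarith
  -- second average
  set C := nb D s z \ U with hC
  have hCpos : 0 < C.card := lt_of_lt_of_le hc0pos (hcard s z)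
  have h2 : ∑ x ∈ C, 3 / 5 * Wt * c0 <
      ∑ x ∈ C, ∑ i ∈ F, w i * (if x ∈ N i then ((nb D t x ∩ N i).card : ℝ) else 0) :=
    sum_lt_sum_of_nonempty (card_pos.1 hCpos) h1
  rw [sum_const, nsmul_eq_mul, sum_comm] at h2
  have h3 : ∀ i ∈ F, ∑ x ∈ C, w i * (if x ∈ N i then ((nb D t x ∩ N i).card : ℝ) else 0) ≤
      w i * ((k : ℝ) ^ 2 / 2) := by
    intro i hi
    rw [← mul_sum]
    apply mul_le_mul_of_nonneg_left _ (hw i hi)
    rw [← sum_filter]
    have h4 : ∑ x ∈ C.filter (fun x => x ∈ N i), ((nb D t x ∩ N i).card : ℝ) ≤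
        ∑ x ∈ N i, ((nb D t x ∩ N i).card : ℝ) := by
      apply sum_le_sum_of_subset_of_nonneg
      · intro x hx
        exact (mem_filter.1 hx).2
      · intros; positivity
    have h5 : 2 * ∑ x ∈ N i, ((nb D t x ∩ N i).card : ℝ) ≤ ((N i).card : ℝ) * (N i).card := by
      exact_mod_cast arcs_inside hD t (N i)
    have h6 : ((N i).card : ℝ) ≤ k := by exact_mod_cast hF i hi
    have h7 : (0 : ℝ) ≤ (N i).card := by positivity
    nlinarith
  have h4 := lt_of_lt_of_le h2 (sum_le_sum h3)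
  rw [← sum_mul, ← hWt] at h4
  have h5 : (c0 : ℝ) ≤ C.card := by exact_mod_cast hcard s z
  have h6 : 5 * (k : ℝ) ^ 2 ≤ 6 * (c0 : ℝ) ^ 2 := by exact_mod_cast hk
  have h7 : (c0 : ℝ) * (3 / 5 * Wt * c0) ≤ C.card * (3 / 5 * Wt * c0) :=
    mul_le_mul_of_nonneg_right h5 (by positivity)
  nlinarith

end Pool.Agent.Lib.MP_47458b_co
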