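import Pool.Agent.Lib.MP_47458b_co.Upper.Pair

/-!
Embedding a subtree with many inner vertices such that every set of a given family is left often.
-/

namespace Pool.Agent.Lib.MP_47458b_co

open Finset

variable {V W : Type} [Fintype V] [DecidableEq V] [Fintype W] [DecidableEq W]
  {D : Digraph V} {T : Digraph W}

/-- `x` has at least two neighbours. -/
def Inner (G : SimpleGraph W) (x : W) : Prop := ∃ a b, a ≠ b ∧ G.Adj x a ∧ G.Adj x b

/-- `x` has at least two neighbours in `A`. -/
def InnerIn (G : SimpleGraph W) (A : Finset W) (x : W) : Prop :=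
  ∃ a ∈ A, ∃ b ∈ A, a ≠ b ∧ G.Adj x a ∧ G.Adj x b

theorem next_pair {G : SimpleGraph W} (hG : G.IsAcyclic) {T0 S : Finset W} (hT0 : Cn G T0)
    (hS : Cn G S) (hST : S ⊆ T0) {r : W} (hr : r ∈ S)
    {x : W} (hx : x ∈ T0) (hxS : x ∉ S) (hin : InnerIn G T0 x) :
    ∃ q ∈ S, ∃ p ∈ T0, p ∉ S ∧ G.Adj q p ∧ ∃ c ∈ T0, c ∉ S ∧ G.Adj p c := by
  classical
  by_contra hcon
  -- every boundary vertex has all its neighbours in `S`
  have h1 : ∀ q ∈ S, ∀ p ∈ T0, p ∉ S → G.Adj q p → ∀ c ∈ T0, G.Adj p c → c ∈ S := by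
    intro q hq p hp hpS hqp c hc hpc
    by_contra hcS
    exact hcon ⟨q, hq, p, hp, hpS, hqp, c, hc, hcS, hpc⟩
  set S' : Finset W := S ∪ T0.filter (fun p => p ∉ S ∧ ∃ q ∈ S, G.Adj q p) with hS'
  have hxS' : x ∉ S' := by
    intro h
    rw [hS', mem_union, mem_filter] at h
    rcases h with h | ⟨-, -, q, hq, hqx⟩
    · exact hxS h
    · obtain ⟨a, ha, b, hb, hab, hxa, hxb⟩ := hin
      exact hab (hS.unique hG (h1 q hq x hx hxS hqx a ha hxa) (h1 q hq x hx hxS hqx b hb hxb) hxS
        hxa.symm hxb.symm)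
  obtain ⟨u, hu, w, hw, hwS', huT, huw⟩ := hT0.boundary (S := S') (a := r) (b := x)
    (mem_union_left _ hr) (hST hr) hx hxS'
  rw [hS', mem_union, mem_filter] at hu
  rcases hu with hu | ⟨-, huS, q, hq, hqu⟩
  · apply hwS'
    rw [hS', mem_union, mem_filter]
    by_cases hwS : w ∈ S
    · exact Or.inl hwS
    · exact Or.inr ⟨hw, hwS, u, hu, huw⟩
  · exact hwS' (mem_union_left _ (h1 q hq u huT huS hqu w hw huw))

theorem spread_emb (hD : IsOrientedGraph D) {k κ g : ℕ} (hκ : ∀ s x, κ ≤ (nb D s x).card)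
    (hn : 2 * g < κ) (hk : 5 * k ^ 2 ≤ 6 * (κ - 2 * g) ^ 2)
    (hT : IsOrientedGraph T) (hG : T.toSimpleGraphInclusive.IsAcyclic)
    {T0 : Finset W} (hT0 : Cn T.toSimpleGraphInclusive T0) {r : W} (hr : r ∈ T0)
    (hcl : ∀ x ∈ T0, x ≠ r → ∀ y, T.toSimpleGraphInclusive.Adj x y → y ∈ T0)
    (I : Finset W) (hI : ∀ x ∈ I, x ∈ T0 ∧ Inner T.toSimpleGraphInclusive x)
    (hIg : 2 * g ≤ I.card) (u : V)
    (F : Finset (Finset V)) (hF : ∀ N ∈ F, N.card ≤ k) :
    ∀ j ≤ g, ∃ S ⊆ T0, ∃ φ : W → V, Cn T.toSimpleGraphInclusive S ∧ r ∈ S ∧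
      S.card = 2 * j + 1 ∧ IsEmb T D S φ ∧ φ r = u ∧
      ∑ N ∈ F, (1 / 2 : ℝ) ^ ((S.image φ) \ N).card ≤ (4 / 5) ^ j * F.card := by
  classical
  intro j
  induction j with
  | zero =>
    intro _
    refine ⟨{r}, by simpa using hr, fun _ => u, Cn.single r, mem_singleton_self r, by simp,
      IsEmb.single hT.1 r u, rfl, ?_⟩
    rw [pow_zero, one_mul]
    calc ∑ N ∈ F, (1 / 2 : ℝ) ^ ((({r} : Finset W).image fun _ => u) \ N).card
        ≤ ∑ N ∈ F, (1 : ℝ) := by
          apply sum_le_sum
          intro N _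
          apply pow_le_one₀ <;> norm_num
      _ = F.card := by simp
  | succ j ih =>
    intro hj
    obtain ⟨S, hST, φ, hS, hrS, hcard, hφ, hφr, hsum⟩ := ih (by omega)
    -- an inner vertex outside `S`
    obtain ⟨x, hxI, hxS⟩ : ∃ x ∈ I, x ∉ S.erase r ∧ x ∉ S := by
      by_contra hcon
      push Not at hcon
      have h1 : I ⊆ S := by
        intro x hx
        by_contra hxS
        exact hxS (hcon x hx (fun h => hxS (mem_of_mem_erase h)))
      have := card_le_card h1
      omega
    have hxin : InnerIn T.toSimpleGraphInclusive T0 x := by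
      obtain ⟨a, b, hab, ha, hb⟩ := (hI x hxI).2
      have hxr : x ≠ r := fun h => hxS.2 (h ▸ hrS)
      exact ⟨a, hcl x (hI x hxI).1 hxr a ha, b, hcl x (hI x hxI).1 hxr b hb, hab, ha, hb⟩
    obtain ⟨q, hq, p, hp, hpS, hqp, c, hc, hcS, hpc⟩ := next_pair hG hT0 hS hST hrS
      (hI x hxI).1 hxS.2 hxin
    have hU : (S.image φ).card ≤ 2 * g := by
      rw [hφ.card_image, hcard]; omega
    obtain ⟨a, ha, haU, b, hb, hbU, hab⟩ := pair_choice hD hκ hn hk hU F id hF
      (fun N => (1 / 2 : ℝ) ^ ((S.image φ) \ N).card) (fun N _ => by positivity) (φ q)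
      (sg T q p) (sg T p c)
    have hφ1 := hφ.extend hT hG hS hq hpS hqp ha haU
    have hS1 : Cn T.toSimpleGraphInclusive (insert p S) := hS.insert hq hqp
    have hcS1 : c ∉ insert p S := by
      rw [mem_insert, not_or]
      exact ⟨hpc.ne.symm, hcS⟩
    have himg1 : (insert p S).image (Function.update φ p a) = insert a (S.image φ) :=
      image_update hpS a
    have hbne : b ≠ a := fun h => notMem_nb_self hD.1 _ a (h ▸ hb)
    have hbS1 : b ∉ (insert p S).image (Function.update φ p a) := by
      rw [himg1, mem_insert, not_or]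
      exact ⟨hbne, hbU⟩
    have hφ2 := hφ1.extend hT hG hS1 (mem_insert_self p S) hcS1 hpc
      (y := b) (by rw [Function.update_self]; exact hb) hbS1
    have himg2 : (insert c (insert p S)).image
        (Function.update (Function.update φ p a) c b) = insert b (insert a (S.image φ)) := by
      rw [image_update hcS1 b, himg1]
    refine ⟨insert c (insert p S), ?_, Function.update (Function.update φ p a) c b,
      hS1.insert (mem_insert_self p S) hpc, mem_insert_of_mem (mem_insert_of_mem hrS), ?_, hφ2,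
      ?_, ?_⟩
    · intro y hy
      rw [mem_insert, mem_insert] at hy
      rcases hy with rfl | rfl | hy
      · exact hc
      · exact hp
      · exact hST hy
    · rw [card_insert_of_notMem hcS1, card_insert_of_notMem hpS, hcard]
      ring
    · rw [Function.update_of_ne, Function.update_of_ne, hφr]
      · intro h
        exact hpS (h ▸ hrS)
      · intro h
        exact hcS (h ▸ hrS)
    · rw [himg2]
      have h1 : ∀ N ∈ F, (1 / 2 : ℝ) ^ ((insert b (insert a (S.image φ))) \ N).card ≤
          (1 / 2 : ℝ) ^ ((S.image φ) \ N).card * (if a ∈ N ∧ b ∈ N then 1 else 1 / 2) := by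
        intro N _
        have hsub : (S.image φ) \ N ⊆ (insert b (insert a (S.image φ))) \ N := by
          apply sdiff_subset_sdiff _ (Subset.refl N)
          intro y hy
          exact mem_insert_of_mem (mem_insert_of_mem hy)
        split_ifs with hN
        · rw [mul_one]
          exact pow_le_pow_of_le_one (by norm_num) (by norm_num) (card_le_card hsub)
        · rw [← pow_succ]
          apply pow_le_pow_of_le_one (by norm_num) (by norm_num)
          rw [Nat.succ_le_iff]
          apply card_lt_card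
          rw [Finset.ssubset_iff_of_subset hsub]
          by_cases haN : a ∈ N
          · have hbN : b ∉ N := fun h => hN ⟨haN, h⟩
            exact ⟨b, mem_sdiff.2 ⟨mem_insert_self _ _, hbN⟩, fun h => hbU (mem_sdiff.1 h).1⟩
          · exact ⟨a, mem_sdiff.2 ⟨mem_insert_of_mem (mem_insert_self _ _), haN⟩,
              fun h => haU (mem_sdiff.1 h).1⟩
      calc ∑ N ∈ F, (1 / 2 : ℝ) ^ ((insert b (insert a (S.image φ))) \ N).card
          ≤ ∑ N ∈ F, (1 / 2 : ℝ) ^ ((S.image φ) \ N).card *
              (if a ∈ N ∧ b ∈ N then 1 else 1 / 2) := sum_le_sum h1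
        _ ≤ 4 / 5 * ∑ N ∈ F, (1 / 2 : ℝ) ^ ((S.image φ) \ N).card := hab
        _ ≤ 4 / 5 * ((4 / 5) ^ j * F.card) := by
            apply mul_le_mul_of_nonneg_left hsum (by norm_num)
        _ = (4 / 5) ^ (j + 1) * F.card := by ring

/-- A bounded number of neighbours. -/
noncomputable def nst (D : Digraph V) (k : ℕ) (s : Bool) (y : V) : Finset V :=
  if h : (nb D s y).card ≤ k then nb D s y
  else Classical.choose (exists_subset_card_eq (s := nb D s y) (n := k + 1) (by omega))

theorem nst_subset (k : ℕ) (s : Bool) (y : V) : nst D k s y ⊆ nb D s y := by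
  unfold nst
  split_ifs with h
  · exact Subset.refl _
  · exact (Classical.choose_spec (exists_subset_card_eq (s := nb D s y) (n := k + 1)
      (by omega))).1

theorem nst_card {k : ℕ} {s : Bool} {y : V} (h : ¬ (nb D s y).card ≤ k) :
    (nst D k s y).card = k + 1 := by
  unfold nst
  rw [dif_neg h]
  exact (Classical.choose_spec (exists_subset_card_eq (s := nb D s y) (n := k + 1)
      (by omega))).2

theorem nst_eq {k : ℕ} {s : Bool} {y : V} (h : (nb D s y).card ≤ k) :
    nst D k s y = nb D s y := by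
  unfold nst
  rw [dif_pos h]

theorem nst_card_le (k : ℕ) (s : Bool) (y : V) : (nst D k s y).card ≤ k + 1 := by
  by_cases h : (nb D s y).card ≤ k
  · rw [nst_eq h]; omega
  · rw [nst_card h]

/-- The ball of radius `i` around `u` for the restricted neighbourhoods. -/
noncomputable def ball (D : Digraph V) (k : ℕ) (u : V) : ℕ → Finset V
  | 0 => {u}
  | i + 1 => ball D k u i ∪ (ball D k u i).biUnion fun y => nst D k true y ∪ nst D k false y

theorem ball_mono {k : ℕ} {u : V} {i j : ℕ} (h : i ≤ j) : ball D k u i ⊆ ball D k u j := by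
  induction j, h using Nat.le_induction with
  | base => exact Subset.refl _
  | succ j _ ih => exact ih.trans subset_union_left

theorem ball_step {k : ℕ} {u y z : V} {i : ℕ} {s : Bool} (hy : y ∈ ball D k u i)
    (hz : z ∈ nst D k s y) : z ∈ ball D k u (i + 1) := by
  rw [ball, mem_union, mem_biUnion]
  refine Or.inr ⟨y, hy, ?_⟩
  rw [mem_union]
  cases s
  · exact Or.inr hz
  · exact Or.inl hz

theorem ball_card (k : ℕ) (u : V) (i : ℕ) : (ball D k u i).card ≤ (2 * k + 3) ^ i := by
  induction i with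
  | zero => simp [ball]
  | succ i ih =>
    rw [ball]
    refine (card_union_le _ _).trans ?_
    have h1 : ((ball D k u i).biUnion fun y => nst D k true y ∪ nst D k false y).card ≤
        (ball D k u i).card * (2 * k + 2) := by
      apply card_biUnion_le_card_mul
      intro y _
      refine (card_union_le _ _).trans ?_
      have h2 := nst_card_le (D := D) k true y
      have h3 := nst_card_le (D := D) k false y
      omega
    calc (ball D k u i).card + ((ball D k u i).biUnion fun y =>
          nst D k true y ∪ nst D k false y).card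
        ≤ (ball D k u i).card + (ball D k u i).card * (2 * k + 2) := by omega
      _ = (ball D k u i).card * (2 * k + 3) := by ring
      _ ≤ (2 * k + 3) ^ i * (2 * k + 3) := Nat.mul_le_mul_right _ ih
      _ = (2 * k + 3) ^ (i + 1) := by ring

end Pool.Agent.Lib.MP_47458b_co
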